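import Pool.Agent.H8K1.CT.Grp

set_option autoImplicit false
namespace H8K1

/-- the four vectors -/
def vv (t : ℝ) : Fin 4 → Z := ![![1, 0], ![0, 1], ![1, 1], ![1, t]]

/-- the family of alternating maps -/
def om (t : ℝ) : Om := LinearMap.mk₂ ℝ
  (fun x y => ∑ i, (x (i, 0) * y (i, 1) - x (i, 1) * y (i, 0)) • vv t i)
  (by
    intro x x' y
    rw [← Finset.sum_add_distrib]
    refine Finset.sum_congr rfl fun i _ => ?_
    rw [← add_smul]
    congr 1
    simp only [Pi.add_apply]
    ring)
  (by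
    intro c x y
    rw [Finset.smul_sum]
    refine Finset.sum_congr rfl fun i _ => ?_
    rw [smul_smul]
    congr 1
    simp only [Pi.smul_apply, smul_eq_mul]
    ring)
  (by
    intro x y y'
    rw [← Finset.sum_add_distrib]
    refine Finset.sum_congr rfl fun i _ => ?_
    rw [← add_smul]
    congr 1
    simp only [Pi.add_apply]
    ring)
  (by
    intro c x y
    rw [Finset.smul_sum]
    refine Finset.sum_congr rfl fun i _ => ?_
    rw [smul_smul]
    congr 1
    simp only [Pi.smul_apply, smul_eq_mul]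
    ring)

theorem om_apply (t : ℝ) (x y : V) :
    om t x y = ∑ i, (x (i, 0) * y (i, 1) - x (i, 1) * y (i, 0)) • vv t i := rfl

theorem om_alt (t : ℝ) : Alt (om t) := by
  intro v
  rw [om_apply]
  refine Finset.sum_eq_zero fun i _ => ?_
  rw [mul_comm, sub_self, zero_smul]

/-- determinant of a pair of the four vectors -/
def dt (s : ℝ) (j k : Fin 4) : ℝ := vv s j 0 * vv s k 1 - vv s j 1 * vv s k 0

theorem cross_cases (s t : ℝ) (hs1 : 1 < s) (hs2 : s < 2) (ht1 : 1 < t) (ht2 : t < 2)
    (j0 j1 j2 j3 : Fin 4) (h01 : j0 ≠ j1) (h02 : j0 ≠ j2) (h03 : j0 ≠ j3) (h12 : j1 ≠ j2)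
    (h13 : j1 ≠ j3) (h23 : j2 ≠ j3)
    (h : t * dt s j0 j2 * dt s j1 j3 = dt s j1 j2 * dt s j0 j3) : s = t := by
  have f1 : s * t > 1 := by nlinarith
  have f2 : s * (t - 1) < t := by nlinarith
  have f3 : s * t > t - 1 := by nlinarith
  have f4 : s * (t - 1) > 0 := by nlinarith
  have f5 : t * (s - 1) < s := by nlinarith
  have f6 : t * (s - 1) > 0 := by nlinarith
  fin_cases j0 <;> fin_cases j1
  all_goals try exact absurd rfl h01
  all_goals fin_cases j2
  all_goals try exact absurd rfl h02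
  all_goals try exact absurd rfl h12
  all_goals fin_cases j3
  all_goals try exact absurd rfl h03
  all_goals try exact absurd rfl h13
  all_goals try exact absurd rfl h23
  all_goals (simp [dt, vv] at h)
  all_goals linarith

/-- basis vectors -/
def eX (i : Fin 4) : V := Pi.single (i, 0) 1
/-- basis vectors -/
def eY (i : Fin 4) : V := Pi.single (i, 1) 1

theorem om_eX (t : ℝ) (i : Fin 4) (b : V) : om t (eX i) b = b (i, 1) • vv t i := by
  rw [om_apply, Finset.sum_eq_single i]
  · simp [eX]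
  · intro j _ hj
    have h0 : (eX i) (j, 0) = 0 := by simp [eX, Pi.single_apply, hj]
    have h1 : (eX i) (j, 1) = 0 := by simp [eX, Pi.single_apply]
    rw [h0, h1]
    simp
  · intro h; exact absurd (Finset.mem_univ i) h

theorem om_eY (t : ℝ) (i : Fin 4) (a : V) : om t a (eY i) = a (i, 0) • vv t i := by
  rw [om_apply, Finset.sum_eq_single i]
  · simp [eY]
  · intro j _ hj
    have h0 : (eY i) (j, 0) = 0 := by simp [eY, Pi.single_apply]
    have h1 : (eY i) (j, 1) = 0 := by simp [eY, Pi.single_apply, hj]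
    rw [h0, h1]
    simp
  · intro h; exact absurd (Finset.mem_univ i) h

theorem om_eX' (t : ℝ) (i : Fin 4) (a : V) : om t a (eX i) = (- a (i, 1)) • vv t i := by
  rw [(om_alt t).swap (eX i) a, om_eX, neg_smul]

theorem vv_ne (t : ℝ) (i : Fin 4) : vv t i ≠ 0 := by
  intro h
  fin_cases i
  · have := congrFun h 0
    simp [vv] at this
  · have := congrFun h 1
    simp [vv] at this
  · have := congrFun h 0
    simp [vv] at this
  · have := congrFun h 0
    simp [vv] at this

theorem eY_app (i j : Fin 4) : (eY i) (j, 1) = if j = i then 1 else 0 := by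
  simp [eY, Pi.single_apply]

theorem alg (s t : ℝ) (hs1 : 1 < s) (hs2 : s < 2) (ht1 : 1 < t) (ht2 : t < 2)
    (L : V →ₗ[ℝ] V) (hL : ∀ a, L a = 0 → a = 0)
    (hLa : ∀ a b a' b', om t a b = om t a' b' → om s (L a) (L b) = om s (L a') (L b')) :
    s = t := by
  have hinj : Function.Injective L := by
    rw [← LinearMap.ker_eq_bot]
    exact (LinearMap.ker_eq_bot').2 hL
  have hsurj : Function.Surjective L := LinearMap.injective_iff_surjective.1 hinj
  -- the images
  let T : Fin 4 → Z := fun i => om s (L (eX i)) (L (eY i))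
  have hP : ∀ i, ∃ (j : Fin 4) (α : ℝ), α ≠ 0 ∧ T i = α • vv s j := by
    intro i
    have hu : L (eX i) ≠ 0 := by
      intro h
      have := hL _ h
      have h2 := congrFun this (i, 0)
      simp [eX] at h2
    have hmul : ∀ b, om s (L (eX i)) (L b) = b (i, 1) • T i := by
      intro b
      have h1 := hLa (eX i) b (eX i) (b (i, 1) • eY i) (by
        rw [om_eX, om_eX]
        simp [eY])
      rw [h1, map_smul, map_smul]
    have hex : ∃ j, (L (eX i)) (j, 0) ≠ 0 ∨ (L (eX i)) (j, 1) ≠ 0 := by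
      by_contra hcon
      push Not at hcon
      apply hu
      funext ⟨j, k⟩
      fin_cases k
      · exact (hcon j).1
      · exact (hcon j).2
    obtain ⟨j, hj⟩ := hex
    refine ⟨j, ?_⟩
    have fin : ∀ (b : V) (c : ℝ), c ≠ 0 → om s (L (eX i)) (L b) = c • vv s j →
        ∃ α : ℝ, α ≠ 0 ∧ T i = α • vv s j := by
      intro b c hc hb
      rw [hmul b] at hb
      have hb0 : b (i, 1) ≠ 0 := by
        intro h0
        rw [h0, zero_smul] at hb
        exact (smul_ne_zero hc (vv_ne s j)) hb.symm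
      refine ⟨(b (i, 1))⁻¹ * c, mul_ne_zero (inv_ne_zero hb0) hc, ?_⟩
      rw [mul_smul, ← hb, smul_smul, inv_mul_cancel₀ hb0, one_smul]
    rcases hj with hj | hj
    · obtain ⟨b, hb⟩ := hsurj (eY j)
      exact fin b _ hj (by rw [hb, om_eY])
    · obtain ⟨b, hb⟩ := hsurj (eX j)
      exact fin b _ (neg_ne_zero.2 hj) (by rw [hb, om_eX'])
  have hbase : ∀ z : Z, om t (eX 0 + eX 1) (z 0 • eY 0 + z 1 • eY 1) = z := by
    intro z
    simp only [map_add, LinearMap.add_apply, map_smul, om_eX, eY_app]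
    funext k
    fin_cases k
    · simp [vv]
    · simp [vv]
  have hTh : ∀ a b, om s (L a) (L b) = (om t a b) 0 • T 0 + (om t a b) 1 • T 1 := by
    intro a b
    have h1 := hLa a b _ _ (hbase (om t a b)).symm
    have e0 : om s (L (eX 0 + eX 1)) (L (eY 0)) = T 0 := by
      refine hLa _ _ _ _ ?_
      rw [map_add, LinearMap.add_apply, om_eX, om_eX, eY_app, eY_app]
      simp
    have e1 : om s (L (eX 0 + eX 1)) (L (eY 1)) = T 1 := by
      refine hLa _ _ _ _ ?_
      rw [map_add, LinearMap.add_apply, om_eX, om_eX, eY_app, eY_app]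
      simp
    rw [h1, ← e0, ← e1]
    set u := L (eX 0 + eX 1) with hu
    simp only [map_add, map_smul]
  have hT2 : T 2 = T 0 + T 1 := by
    show om s (L (eX 2)) (L (eY 2)) = _
    rw [hTh, om_eX, eY_app]
    simp [vv]
  have hT3 : T 3 = T 0 + t • T 1 := by
    show om s (L (eX 3)) (L (eY 3)) = _
    rw [hTh, om_eX, eY_app]
    simp [vv]
  have hspan : ∀ z : Z, ∃ p q : ℝ, z = p • T 0 + q • T 1 := by
    intro z
    have h1 : om s (eX 0 + eX 1) (z 0 • eY 0 + z 1 • eY 1) = z := by
      simp only [map_add, LinearMap.add_apply, map_smul, om_eX, eY_app]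
      funext k
      fin_cases k
      · simp [vv]
      · simp [vv]
    obtain ⟨a, ha⟩ := hsurj (eX 0 + eX 1)
    obtain ⟨b, hb⟩ := hsurj (z 0 • eY 0 + z 1 • eY 1)
    refine ⟨(om t a b) 0, (om t a b) 1, ?_⟩
    rw [← hTh, ha, hb, h1]
  have hdet : T 0 0 * T 1 1 - T 0 1 * T 1 0 ≠ 0 := by
    intro h0
    obtain ⟨p, q, h1⟩ := hspan ![1, 0]
    obtain ⟨p', q', h2⟩ := hspan ![0, 1]
    have a1 := congrFun h1 0
    have a2 := congrFun h1 1
    have a3 := congrFun h2 0
    have a4 := congrFun h2 1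
    simp at a1 a2 a3 a4
    have : (1 : ℝ) = 0 := by
      calc (1 : ℝ) = (p * T 0 0 + q * T 1 0) * (p' * T 0 1 + q' * T 1 1) -
            (p * T 0 1 + q * T 1 1) * (p' * T 0 0 + q' * T 1 0) := by
            rw [← a1, ← a2, ← a3, ← a4]; ring
        _ = (p * q' - q * p') * (T 0 0 * T 1 1 - T 0 1 * T 1 0) := by ring
        _ = 0 := by rw [h0, mul_zero]
    exact one_ne_zero this
  obtain ⟨j0, α, hα, e0⟩ := hP 0
  obtain ⟨j1, β, hβ, e1⟩ := hP 1
  obtain ⟨j2, γ, hγ, e2⟩ := hP 2
  obtain ⟨j3, δ, hδ, e3⟩ := hP 3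
  rw [hT2] at e2
  rw [hT3] at e3
  have a00 := congrFun e0 0
  have a01 := congrFun e0 1
  have a10 := congrFun e1 0
  have a11 := congrFun e1 1
  have a20 := congrFun e2 0
  have a21 := congrFun e2 1
  have a30 := congrFun e3 0
  have a31 := congrFun e3 1
  simp only [Pi.add_apply, Pi.smul_apply, smul_eq_mul] at a00 a01 a10 a11 a20 a21 a30 a31
  rw [a00, a01, a10, a11] at hdet
  rw [a00, a10] at a20 a30
  rw [a01, a11] at a21 a31
  refine cross_cases s t hs1 hs2 ht1 ht2 j0 j1 j2 j3 ?_ ?_ ?_ ?_ ?_ ?_ ?_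
  · rintro rfl
    apply hdet; ring
  · rintro rfl
    apply hdet
    linear_combination (α * vv s j0 0) * a21 - (α * vv s j0 1) * a20
  · rintro rfl
    apply hdet
    have : t * (α * vv s j0 0 * (β * vv s j1 1) - α * vv s j0 1 * (β * vv s j1 0)) = 0 := by
      linear_combination (α * vv s j0 0) * a31 - (α * vv s j0 1) * a30
    rcases mul_eq_zero.1 this with h | h
    · linarith
    · exact h
  · rintro rfl
    apply hdet
    linear_combination (β * vv s j1 1) * a20 - (β * vv s j1 0) * a21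
  · rintro rfl
    apply hdet
    linear_combination (β * vv s j1 1) * a30 - (β * vv s j1 0) * a31
  · rintro rfl
    apply hdet
    have : (t - 1) * (α * vv s j0 0 * (β * vv s j1 1) - α * vv s j0 1 * (β * vv s j1 0)) = 0 := by
      have h1 : (α * vv s j0 0 + β * vv s j1 0) * (α * vv s j0 1 + t * (β * vv s j1 1)) -
        (α * vv s j0 1 + β * vv s j1 1) * (α * vv s j0 0 + t * (β * vv s j1 0)) = 0 := by
        rw [a20, a21, a30, a31]; ring
      linear_combination h1
    rcases mul_eq_zero.1 this with h | h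
    · linarith
    · exact h
  · unfold dt
    have h1 : α * (vv s j0 0 * vv s j2 1 - vv s j0 1 * vv s j2 0) +
        β * (vv s j1 0 * vv s j2 1 - vv s j1 1 * vv s j2 0) = 0 := by
      linear_combination vv s j2 1 * a20 - vv s j2 0 * a21
    have h2 : α * (vv s j0 0 * vv s j3 1 - vv s j0 1 * vv s j3 0) +
        t * β * (vv s j1 0 * vv s j3 1 - vv s j1 1 * vv s j3 0) = 0 := by
      linear_combination vv s j3 1 * a30 - vv s j3 0 * a31
    have h3 : α * β ≠ 0 := mul_ne_zero hα hβ
    apply mul_left_cancel₀ h3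
    linear_combination (t * β * (vv s j1 0 * vv s j3 1 - vv s j1 1 * vv s j3 0)) * h1 -
      β * (vv s j1 0 * vv s j2 1 - vv s j1 1 * vv s j2 0) * h2

end H8K1
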