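import Pool.Agent.H8K1.CT.Graph2

set_option autoImplicit false
namespace H8K1
open NG

/-- Cayley graph of the frozen statement -/
abbrev Cay {H : Type} [Group H] (S : Set H) : SimpleGraph H :=
  SimpleGraph.fromRel (fun g h : H => ∃ s ∈ S, h = g * s)

/-- free group on n letters -/
abbrev FG (n : ℕ) := FreeGroup (Fin n)

section cay
variable {H : Type} [Group H] {S : Set H} {n : ℕ} {σ : Fin n → H}

theorem cay_step (hσ : ∀ i, σ i ∈ S) (i : Fin n) (b : Bool) (a : H) :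
    ∃ p : (Cay S).Walk a (a * FreeGroup.lift σ (FreeGroup.mk [(i, b)])), p.length ≤ 1 := by
  by_cases he : a = a * FreeGroup.lift σ (FreeGroup.mk [(i, b)])
  · refine ⟨SimpleGraph.Walk.nil.copy rfl he, ?_⟩
    rw [SimpleGraph.Walk.length_copy]
    simp
  · have hadj : (Cay S).Adj a (a * FreeGroup.lift σ (FreeGroup.mk [(i, b)])) := by
      rw [SimpleGraph.fromRel_adj]
      refine ⟨he, ?_⟩
      cases b with
      | true =>
        left
        refine ⟨σ i, hσ i, ?_⟩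
        rw [FreeGroup.lift_mk]
        simp
      | false =>
        right
        refine ⟨σ i, hσ i, ?_⟩
        rw [FreeGroup.lift_mk]
        simp
    exact ⟨SimpleGraph.Walk.cons hadj SimpleGraph.Walk.nil, by
      rw [SimpleGraph.Walk.length_cons, SimpleGraph.Walk.length_nil]⟩

theorem cay_list (hσ : ∀ i, σ i ∈ S) (L : List (Fin n × Bool)) : ∀ a : H,
    ∃ p : (Cay S).Walk a (a * FreeGroup.lift σ (FreeGroup.mk L)), p.length ≤ L.length := by
  induction L with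
  | nil =>
    intro a
    have : FreeGroup.lift σ (FreeGroup.mk []) = 1 := by
      rw [FreeGroup.lift_mk]; simp
    refine ⟨SimpleGraph.Walk.nil.copy rfl (by rw [this, mul_one]), ?_⟩
    rw [SimpleGraph.Walk.length_copy]
    simp
  | cons x L ih =>
    intro a
    obtain ⟨i, b⟩ := x
    obtain ⟨p, hp⟩ := cay_step hσ i b a
    obtain ⟨q, hq⟩ := ih (a * FreeGroup.lift σ (FreeGroup.mk [(i, b)]))
    refine ⟨(p.append q).copy rfl ?_, ?_⟩
    · rw [mul_assoc, ← map_mul, FreeGroup.mul_mk]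
      rfl
    · rw [SimpleGraph.Walk.length_copy, SimpleGraph.Walk.length_append, List.length_cons]
      omega

theorem cay_walk (hσ : ∀ i, σ i ∈ S) (w : FG n) (a : H) :
    ∃ p : (Cay S).Walk a (a * FreeGroup.lift σ w), p.length ≤ w.norm := by
  obtain ⟨p, hp⟩ := cay_list hσ w.toWord a
  refine ⟨p.copy rfl (by rw [FreeGroup.mk_toWord]), ?_⟩
  rw [SimpleGraph.Walk.length_copy]
  exact hp

theorem cay_dist_le (hσ : ∀ i, σ i ∈ S) (w : FG n) (a b : H)
    (h : a * FreeGroup.lift σ w = b) : (Cay S).dist a b ≤ w.norm := by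
  subst h
  obtain ⟨p, hp⟩ := cay_walk hσ w a
  exact (SimpleGraph.dist_le p).trans hp

theorem lift_surj (hσ' : ∀ s ∈ S, ∃ i, σ i = s) (hS : Subgroup.closure S = ⊤) :
    Function.Surjective (FreeGroup.lift σ) := by
  rw [← MonoidHom.range_eq_top, FreeGroup.range_lift_eq_closure, eq_top_iff, ← hS]
  refine Subgroup.closure_mono ?_
  intro s hs
  obtain ⟨i, hi⟩ := hσ' s hs
  exact ⟨i, hi⟩

theorem cay_conn (hσ : ∀ i, σ i ∈ S) (hσ' : ∀ s ∈ S, ∃ i, σ i = s)
    (hS : Subgroup.closure S = ⊤) : (Cay S).Connected := by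
  rw [SimpleGraph.connected_iff]
  refine ⟨fun a b => ?_, ⟨1⟩⟩
  obtain ⟨w, hw⟩ := lift_surj hσ' hS (a⁻¹ * b)
  obtain ⟨p, _⟩ := cay_walk hσ w a
  exact ⟨p.copy rfl (by rw [hw, mul_inv_cancel_left])⟩

theorem walk_word (hσ' : ∀ s ∈ S, ∃ i, σ i = s) {a b : H} (p : (Cay S).Walk a b) :
    ∃ w : FG n, w.norm ≤ p.length ∧ a * FreeGroup.lift σ w = b := by
  induction p with
  | nil => exact ⟨1, by simp, by simp⟩
  | @cons u v w' hadj p ih =>
    obtain ⟨w, hw, hv⟩ := ih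
    rw [SimpleGraph.fromRel_adj] at hadj
    rcases hadj.2 with ⟨s, hs, he⟩ | ⟨s, hs, he⟩
    · obtain ⟨i, hi⟩ := hσ' s hs
      refine ⟨FreeGroup.of i * w, ?_, ?_⟩
      · refine (FreeGroup.norm_mul_le _ _).trans ?_
        rw [FreeGroup.norm_of, SimpleGraph.Walk.length_cons]
        omega
      · rw [map_mul, FreeGroup.lift_apply_of, hi, ← mul_assoc, ← he, hv]
    · obtain ⟨i, hi⟩ := hσ' s hs
      refine ⟨(FreeGroup.of i)⁻¹ * w, ?_, ?_⟩
      · refine (FreeGroup.norm_mul_le _ _).trans ?_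
        rw [FreeGroup.norm_inv_eq, FreeGroup.norm_of, SimpleGraph.Walk.length_cons]
        omega
      · rw [map_mul, map_inv, FreeGroup.lift_apply_of, hi, ← mul_assoc, he, mul_inv_cancel_right, hv]

theorem exists_word (hσ : ∀ i, σ i ∈ S) (hσ' : ∀ s ∈ S, ∃ i, σ i = s)
    (hS : Subgroup.closure S = ⊤) (a b : H) :
    ∃ w : FG n, w.norm ≤ (Cay S).dist a b ∧ a * FreeGroup.lift σ w = b := by
  obtain ⟨p, hp⟩ := (cay_conn hσ hσ' hS).exists_walk_length_eq_dist a b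
  obtain ⟨w, hw, h⟩ := walk_word hσ' p
  exact ⟨w, by rw [← hp]; exact hw, h⟩

end cay

/-- short relators -/
def Rl {H : Type} [Group H] {n : ℕ} (σ : Fin n → H) (R : ℕ) : Set (FG n) :=
  {r | FreeGroup.lift σ r = 1 ∧ r.norm ≤ R}

theorem Rl_finite {H : Type} [Group H] {n : ℕ} (σ : Fin n → H) (R : ℕ) : (Rl σ R).Finite := by
  refine Set.Finite.of_injOn (f := FreeGroup.toWord) (t := {L : List (Fin n × Bool) | L.length ≤ R})
    ?_ ?_ (List.finite_length_le _ _)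
  · intro r hr
    exact hr.2
  · intro r _ r' _ h
    exact FreeGroup.toWord_injective h

section ladder
variable {H : Type} {Q : Type} [Group Q] (E : H → H → Q)

/-- ordered products along a sequence -/
def Pi' (a : ℕ → H) : ℕ → Q
  | 0 => 1
  | (k + 1) => Pi' a k * E (a k) (a (k + 1))

theorem ladder (d : H → H → ℝ) (R' : ℝ)
    (hE : ∀ a b c, d a b ≤ R' → d b c ≤ R' → d a c ≤ R' → E a b * E b c = E a c)
    (a b : ℕ → H) (k : ℕ)
    (h1 : ∀ i ≤ k, d (a i) (b i) ≤ R') (h2 : ∀ i < k, d (a i) (a (i + 1)) ≤ R')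
    (h3 : ∀ i < k, d (b i) (b (i + 1)) ≤ R') (h4 : ∀ i < k, d (a i) (b (i + 1)) ≤ R') :
    ∀ j ≤ k, Pi' E a j * E (a j) (b j) = E (a 0) (b 0) * Pi' E b j := by
  intro j
  induction j with
  | zero =>
    intro _
    show 1 * E (a 0) (b 0) = E (a 0) (b 0) * 1
    rw [one_mul, mul_one]
  | succ j ih =>
    intro hj
    show Pi' E a j * E (a j) (a (j + 1)) * E (a (j + 1)) (b (j + 1)) =
      E (a 0) (b 0) * (Pi' E b j * E (b j) (b (j + 1)))
    rw [mul_assoc, hE _ _ _ (h2 j (by omega)) (h1 (j + 1) hj) (h4 j (by omega)),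
      ← hE _ _ _ (h1 j (by omega)) (h3 j (by omega)) (h4 j (by omega)), ← mul_assoc,
      ih (by omega), mul_assoc]

theorem ladder_one (d : H → H → ℝ) (R' : ℝ)
    (hE : ∀ a b c, d a b ≤ R' → d b c ≤ R' → d a c ≤ R' → E a b * E b c = E a c)
    (a b : ℕ → H) (k : ℕ)
    (h1 : ∀ i ≤ k, d (a i) (b i) ≤ R') (h2 : ∀ i < k, d (a i) (a (i + 1)) ≤ R')
    (h3 : ∀ i < k, d (b i) (b (i + 1)) ≤ R') (h4 : ∀ i < k, d (a i) (b (i + 1)) ≤ R')
    (ha : a k = a 0) (hb : b k = b 0) (h : Pi' E b k = 1) : Pi' E a k = 1 := by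
  have h5 := ladder E d R' hE a b k h1 h2 h3 h4 k le_rfl
  rw [ha, hb, h, mul_one] at h5
  exact mul_eq_right.1 h5

theorem ladder_one' (d : H → H → ℝ) (R' : ℝ)
    (hE : ∀ a b c, d a b ≤ R' → d b c ≤ R' → d a c ≤ R' → E a b * E b c = E a c)
    (a b : ℕ → H) (k : ℕ)
    (h1 : ∀ i ≤ k, d (a i) (b i) ≤ R') (h2 : ∀ i < k, d (a i) (a (i + 1)) ≤ R')
    (h3 : ∀ i < k, d (b i) (b (i + 1)) ≤ R') (h4 : ∀ i < k, d (a i) (b (i + 1)) ≤ R')
    (ha : a k = a 0) (hb : b k = b 0) (h : Pi' E a k = 1) : Pi' E b k = 1 := by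
  have h5 := ladder E d R' hE a b k h1 h2 h3 h4 k le_rfl
  rw [ha, hb, h, one_mul] at h5
  exact (mul_eq_left.1 h5.symm)

end ladder

end H8K1
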