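import Pool.Agent.H8K1.CT.FP1

set_option autoImplicit false
namespace H8K1
open NG

variable {ω : Om} {W : ℝ}

theorem dl_near (hD : Dat ω W) (x : NG ω) (M j : ℕ) (hj : j < M) (h1 : ‖x.v‖ ≤ M)
    (h2 : 2 * ‖x.z‖ ≤ M) :
    In ((dl ((j : ℝ) / M) x)⁻¹ * dl (((j + 1 : ℕ) : ℝ) / M) x) 1 := by
  have hM : (0 : ℝ) < M := by
    have : 0 < M := by omega
    exact_mod_cast this
  have hjM : (j : ℝ) + 1 ≤ M := by exact_mod_cast hj
  have hj0 : (0 : ℝ) ≤ j := by positivity
  constructor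
  · simp only [mul_v, inv_v, dl]
    rw [← neg_smul, ← add_smul, norm_smul]
    have e : -((j : ℝ) / M) + ((j + 1 : ℕ) : ℝ) / M = 1 / M := by
      push_cast; ring
    rw [e, Real.norm_eq_abs, abs_of_pos (by positivity), one_div, inv_mul_le_iff₀ hM]
    linarith
  · simp only [mul_z, inv_z, inv_v, dl, map_neg, map_smul, LinearMap.neg_apply,
      LinearMap.smul_apply, hD.alt x.v, smul_zero, neg_zero, add_zero]
    rw [← neg_smul, ← add_smul, norm_smul]
    have e : -((j : ℝ) / M) ^ 2 + (((j + 1 : ℕ) : ℝ) / M) ^ 2 = (2 * j + 1) / M ^ 2 := by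
      push_cast; ring
    rw [e, Real.norm_eq_abs, abs_of_nonneg (by positivity), div_mul_eq_mul_div,
      div_le_iff₀ (by positivity)]
    nlinarith [norm_nonneg x.z]

/-- Finite presentability: all relations follow from short ones. -/
theorem fin_pres (hD : Dat ω W) {H : Type} [Group H] {S : Set H} {n : ℕ} {σ : Fin n → H}
    (hσ : ∀ i, σ i ∈ S) (hσ' : ∀ s ∈ S, ∃ i, σ i = s) (hS : Subgroup.closure S = ⊤)
    (φ : Vn → H) (K C : ℝ) (hK : 0 < K)
    (hlow : ∀ a b : Vn, ((GG ω W).dist a b : ℝ) / K - C ≤ ((Cay S).dist (φ a) (φ b) : ℝ))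
    (hup : ∀ a b : Vn, ((Cay S).dist (φ a) (φ b) : ℝ) ≤ K * ((GG ω W).dist a b : ℝ) + C)
    (hsurj : ∀ h : H, ∃ a : Vn, ((Cay S).dist (φ a) h : ℝ) ≤ C) :
    ∃ R : ℕ, ∀ r : FG n, FreeGroup.lift σ r = 1 → r ∈ Subgroup.normalClosure (Rl σ R) := by
  have hW0 := hD.bd.1
  have hC0 : 0 ≤ C := by
    obtain ⟨a, ha⟩ := hsurj 1
    exact (by positivity : (0 : ℝ) ≤ ((Cay S).dist (φ a) 1 : ℝ)).trans ha
  have hconn := cay_conn hσ hσ' hS
  set B := 3 * (1 + W) ^ 3 with hB
  have hB0 : 0 ≤ B := by positivity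
  set r₀ := B * (K * (3 * C + 1)) with hr₀
  have hr₀0 : 0 ≤ r₀ := by positivity
  set R' := K * (9 * ((1 + W) * (1 + r₀)) + 9) + C + (2 * C + 1) with hR'
  have hR'1 : 1 ≤ R' := by
    have : 0 ≤ K * (9 * ((1 + W) * (1 + r₀)) + 9) := by positivity
    linarith
  set R := ⌈3 * R'⌉₊ with hR
  have hR3 : 3 * R' ≤ (R : ℝ) := Nat.le_ceil _
  refine ⟨R, ?_⟩
  intro r hr
  let N := Subgroup.normalClosure (Rl σ R)
  let π : FG n →* FG n ⧸ N := QuotientGroup.mk' N
  have hπ : ∀ w : FG n, w ∈ Rl σ R → π w = 1 := by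
    intro w hw
    exact (QuotientGroup.eq_one_iff w).2 (Subgroup.subset_normalClosure hw)
  choose Wd hWd1 hWd2 using exists_word hσ hσ' hS
  let E : H → H → FG n ⧸ N := fun a b => π (Wd a b)
  let d : H → H → ℝ := fun a b => ((Cay S).dist a b : ℝ)
  have hWdr : ∀ a b, ((Wd a b).norm : ℝ) ≤ d a b := by
    intro a b
    show ((Wd a b).norm : ℝ) ≤ (((Cay S).dist a b : ℕ) : ℝ)
    exact_mod_cast hWd1 a b
  have hd_tri : ∀ a b c, d a c ≤ d a b + d b c := by
    intro a b c
    have := hconn.dist_triangle (u := a) (v := b) (w := c)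
    show (((Cay S).dist a c : ℕ) : ℝ) ≤ ((Cay S).dist a b : ℝ) + ((Cay S).dist b c : ℝ)
    exact_mod_cast this
  have hd_comm : ∀ a b, d a b = d b a := by
    intro a b
    show (((Cay S).dist a b : ℕ) : ℝ) = _
    rw [SimpleGraph.dist_comm]
  have hE : ∀ a b c, d a b ≤ R' → d b c ≤ R' → d a c ≤ R' → E a b * E b c = E a c := by
    intro a b c hab hbc hac
    have h1 : Wd a b * Wd b c * (Wd a c)⁻¹ ∈ Rl σ R := by
      constructor
      · rw [map_mul, map_mul, map_inv]
        have e1 : FreeGroup.lift σ (Wd a b) = a⁻¹ * b := by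
          rw [eq_inv_mul_iff_mul_eq]; exact hWd2 a b
        have e2 : FreeGroup.lift σ (Wd b c) = b⁻¹ * c := by
          rw [eq_inv_mul_iff_mul_eq]; exact hWd2 b c
        have e3 : FreeGroup.lift σ (Wd a c) = a⁻¹ * c := by
          rw [eq_inv_mul_iff_mul_eq]; exact hWd2 a c
        rw [e1, e2, e3]
        group
      · have h2 := (FreeGroup.norm_mul_le (Wd a b * Wd b c) (Wd a c)⁻¹).trans
          (Nat.add_le_add_right (FreeGroup.norm_mul_le _ _) _)
        rw [FreeGroup.norm_inv_eq] at h2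
        have h3 : (((Wd a b * Wd b c * (Wd a c)⁻¹).norm : ℕ) : ℝ) ≤ R := by
          have a1 := hWdr a b
          have a2 := hWdr b c
          have a3 := hWdr a c
          have a4 : (((Wd a b * Wd b c * (Wd a c)⁻¹).norm : ℕ) : ℝ) ≤
              ((Wd a b).norm : ℝ) + (Wd b c).norm + (Wd a c).norm := by exact_mod_cast h2
          linarith
        exact_mod_cast h3
    have h2 := hπ _ h1
    rw [map_mul, map_mul, map_inv, mul_inv_eq_one] at h2
    exact h2
  have hE1 : ∀ a, E a a = 1 := by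
    intro a
    refine hπ _ ⟨?_, ?_⟩
    · have := hWd2 a a
      exact mul_eq_left.1 this
    · have := hWd1 a a
      rw [SimpleGraph.dist_self] at this
      omega
  -- the path of the relator
  let L := r.toWord
  let k := L.length
  let u : ℕ → FG n := fun i => FreeGroup.mk (L.take i)
  let ℓ : ℕ → FG n := fun i => FreeGroup.mk (L[i]?.toList)
  have hu : ∀ i, u (i + 1) = u i * ℓ i := by
    intro i
    show FreeGroup.mk (L.take (i + 1)) = FreeGroup.mk (L.take i) * FreeGroup.mk (L[i]?.toList)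
    rw [List.take_add_one, FreeGroup.mul_mk]
  have hℓ : ∀ i, (ℓ i).norm ≤ 1 := by
    intro i
    refine FreeGroup.norm_mk_le.trans ?_
    cases L[i]? with
    | none => simp
    | some a => simp
  have hu0 : u 0 = 1 := by
    show FreeGroup.mk (L.take 0) = 1
    rw [List.take_zero]
    rfl
  have huk : u k = r := by
    show FreeGroup.mk (L.take L.length) = r
    rw [List.take_length]
    exact FreeGroup.mk_toWord
  let h : ℕ → H := fun i => FreeGroup.lift σ (u i)
  have hh0 : h 0 = 1 := by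
    show FreeGroup.lift σ (u 0) = 1
    rw [hu0, map_one]
  have hhk : h k = 1 := by
    show FreeGroup.lift σ (u k) = 1
    rw [huk, hr]
  have hhs : ∀ i, h i * FreeGroup.lift σ (ℓ i) = h (i + 1) := by
    intro i
    show FreeGroup.lift σ (u i) * _ = FreeGroup.lift σ (u (i + 1))
    rw [hu, map_mul]
  have hhd : ∀ i, d (h i) (h (i + 1)) ≤ 1 := by
    intro i
    have h1 := (cay_dist_le hσ (ℓ i) _ _ (hhs i)).trans (hℓ i)
    show (((Cay S).dist (h i) (h (i + 1)) : ℕ) : ℝ) ≤ 1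
    exact_mod_cast h1
  have hEh : ∀ i, E (h i) (h (i + 1)) = π (ℓ i) := by
    intro i
    have h1 : Wd (h i) (h (i + 1)) * (ℓ i)⁻¹ ∈ Rl σ R := by
      constructor
      · rw [map_mul, map_inv]
        have e1 : FreeGroup.lift σ (Wd (h i) (h (i + 1))) = (h i)⁻¹ * h (i + 1) := by
          rw [eq_inv_mul_iff_mul_eq]; exact hWd2 _ _
        have e2 : FreeGroup.lift σ (ℓ i) = (h i)⁻¹ * h (i + 1) := by
          rw [eq_inv_mul_iff_mul_eq]; exact hhs i
        rw [e1, e2, mul_inv_cancel]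
      · have h2 := FreeGroup.norm_mul_le (Wd (h i) (h (i + 1))) (ℓ i)⁻¹
        rw [FreeGroup.norm_inv_eq] at h2
        have h3 : (((Wd (h i) (h (i + 1)) * (ℓ i)⁻¹).norm : ℕ) : ℝ) ≤ R := by
          have a1 := hWdr (h i) (h (i + 1))
          have a2 : ((ℓ i).norm : ℝ) ≤ 1 := by exact_mod_cast hℓ i
          have a3 := hhd i
          have a4 : (((Wd (h i) (h (i + 1)) * (ℓ i)⁻¹).norm : ℕ) : ℝ) ≤
              ((Wd (h i) (h (i + 1))).norm : ℝ) + (ℓ i).norm := by exact_mod_cast h2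
          linarith
        exact_mod_cast h3
    have h2 := hπ _ h1
    rw [map_mul, map_inv, mul_inv_eq_one] at h2
    exact h2
  have hPi : ∀ i, Pi' E h i = π (u i) := by
    intro i
    induction i with
    | zero =>
      show (1 : FG n ⧸ N) = π (u 0)
      rw [hu0, map_one]
    | succ i ih =>
      show Pi' E h i * E (h i) (h (i + 1)) = π (u (i + 1))
      rw [ih, hEh, hu, map_mul]
  suffices hmain : Pi' E h k = 1 by
    rw [hPi, huk] at hmain
    exact (QuotientGroup.eq_one_iff r).1 hmain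
  -- transport to the nilpotent group
  choose ψ hψ using hsurj
  let x : ℕ → NG ω := fun i => emb ω (ψ (h i))
  have hrdx : ∀ i, rd (x i) = ψ (h i) := fun i => rd_emb hD.alt _
  have hφin : ∀ (g g' : NG ω) (s : ℝ), In (g⁻¹ * g') s →
      d (φ (rd g)) (φ (rd g')) ≤ K * (9 * s + 9) + C := by
    intro g g' s hs
    refine (hup _ _).trans ?_
    have := dist_le_real hD hs
    have := mul_le_mul_of_nonneg_left this hK.le
    linarith
  have hbig : ∀ s, s ≤ (1 + W) * (1 + r₀) → K * (9 * s + 9) + C ≤ R' := by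
    intro s hs
    have : K * (9 * s + 9) ≤ K * (9 * ((1 + W) * (1 + r₀)) + 9) := by
      have : 9 * s + 9 ≤ 9 * ((1 + W) * (1 + r₀)) + 9 := by linarith
      exact mul_le_mul_of_nonneg_left this hK.le
    linarith
  have hφψ : ∀ i, d (φ (rd (x i))) (h i) ≤ C := by
    intro i
    rw [hrdx]
    exact hψ _
  have hbb : ∀ i, d (φ (rd (x i))) (φ (rd (x (i + 1)))) ≤ 2 * C + 1 := by
    intro i
    have h1 := hd_tri (φ (rd (x i))) (h i) (φ (rd (x (i + 1))))
    have h2 := hd_tri (h i) (h (i + 1)) (φ (rd (x (i + 1))))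
    have h3 := hφψ i
    have h4 := hφψ (i + 1)
    rw [hd_comm] at h4
    have h5 := hhd i
    linarith
  have hxx : ∀ i, In ((x i)⁻¹ * x (i + 1)) r₀ := by
    intro i
    have h1 := hlow (ψ (h i)) (ψ (h (i + 1)))
    have h2 := hbb i
    rw [hrdx, hrdx] at h2
    have h3 : ((GG ω W).dist (ψ (h i)) (ψ (h (i + 1))) : ℝ) ≤ K * (3 * C + 1) := by
      have h4 : ((GG ω W).dist (ψ (h i)) (ψ (h (i + 1))) : ℝ) / K ≤ 3 * C + 1 := by
        have h5 : d (φ (ψ (h i))) (φ (ψ (h (i + 1)))) =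
          ((Cay S).dist (φ (ψ (h i))) (φ (ψ (h (i + 1)))) : ℝ) := rfl
        rw [h5] at h2
        linarith
      rw [div_le_iff₀ hK] at h4
      linarith
    exact (In_dist hD (ψ (h i)) (ψ (h (i + 1)))).mono (mul_le_mul_of_nonneg_left h3 hB0)
  have hr₀W : r₀ ≤ (1 + W) * (1 + r₀) := by nlinarith
  have h1W : 1 ≤ (1 + W) * (1 + r₀) := by nlinarith
  have hxk : x k = x 0 := by
    show emb ω (ψ (h k)) = emb ω (ψ (h 0))
    rw [hhk, hh0]
  have hC1 : 2 * C + 1 ≤ R' := by
    have : 0 ≤ K * (9 * ((1 + W) * (1 + r₀)) + 9) := by positivity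
    linarith
  -- scale
  obtain ⟨M, hM1, hM2⟩ : ∃ M : ℕ, 0 < M ∧ ∀ i ≤ k, ‖(x i).v‖ ≤ M ∧ 2 * ‖(x i).z‖ ≤ M := by
    refine ⟨⌈∑ i ∈ Finset.range (k + 1), (‖(x i).v‖ + 2 * ‖(x i).z‖)⌉₊ + 1, by omega, ?_⟩
    intro i hi
    have h1 : ‖(x i).v‖ + 2 * ‖(x i).z‖ ≤
        ∑ i ∈ Finset.range (k + 1), (‖(x i).v‖ + 2 * ‖(x i).z‖) :=
      Finset.single_le_sum (f := fun i => ‖(x i).v‖ + 2 * ‖(x i).z‖)
        (fun j _ => by positivity) (Finset.mem_range.2 (by omega))
    have h2 := Nat.le_ceil (∑ i ∈ Finset.range (k + 1), (‖(x i).v‖ + 2 * ‖(x i).z‖))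
    have h3 := norm_nonneg (x i).v
    have h4 := norm_nonneg (x i).z
    push_cast
    constructor <;> linarith
  have hM0 : (0 : ℝ) < M := by exact_mod_cast hM1
  let bb : ℕ → ℕ → H := fun j i => φ (rd (dl ((j : ℝ) / M) (x i)))
  have hbbk : ∀ j, bb j k = bb j 0 := by
    intro j
    show φ (rd (dl ((j : ℝ) / M) (x k))) = φ (rd (dl ((j : ℝ) / M) (x 0)))
    rw [hxk]
  have hstart : Pi' E (bb 0) k = 1 := by
    have hc : ∀ i, bb 0 i = φ (rd (1 : NG ω)) := by
      intro i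
      show φ (rd (dl (((0 : ℕ) : ℝ) / M) (x i))) = _
      rw [Nat.cast_zero, zero_div, dl_zero]
    have : ∀ i, Pi' E (bb 0) i = 1 := by
      intro i
      induction i with
      | zero => rfl
      | succ i ih =>
        show Pi' E (bb 0) i * E (bb 0 i) (bb 0 (i + 1)) = 1
        rw [ih, hc, hc, hE1, one_mul]
    exact this k
  have hsame : ∀ j ≤ M, ∀ i, d (bb j i) (bb j (i + 1)) ≤ R' := by
    intro j hj i
    have hs0 : 0 ≤ (j : ℝ) / M := by positivity
    have hs1 : (j : ℝ) / M ≤ 1 := by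
      rw [div_le_one hM0]; exact_mod_cast hj
    have h1 := In_dl hs0 (hxx i)
    rw [dl_mul, dl_inv] at h1
    have h2 : (j : ℝ) / M * r₀ ≤ r₀ := by nlinarith
    refine (hφin _ _ _ (h1.mono h2)).trans (hbig _ hr₀W)
  have hind : ∀ j ≤ M, Pi' E (bb j) k = 1 := by
    intro j
    induction j with
    | zero => intro _; exact hstart
    | succ j ih =>
      intro hj
      have hj' : j < M := by omega
      have near : ∀ i ≤ k, In ((dl ((j : ℝ) / M) (x i))⁻¹ * dl (((j + 1 : ℕ) : ℝ) / M) (x i)) 1 :=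
        fun i hi => dl_near hD (x i) M j hj' (hM2 i hi).1 (hM2 i hi).2
      refine ladder_one' E d R' hE (bb j) (bb (j + 1)) k ?_ ?_ ?_ ?_ (hbbk j) (hbbk (j + 1))
        (ih (by omega))
      · intro i hi
        exact (hφin _ _ _ (near i hi)).trans (hbig _ h1W)
      · intro i _
        exact hsame j (by omega) i
      · intro i _
        exact hsame (j + 1) hj i
      · intro i hi
        have h1 := near i (by omega)
        have hs0 : 0 ≤ ((j + 1 : ℕ) : ℝ) / M := by positivity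
        have hs1 : ((j + 1 : ℕ) : ℝ) / M ≤ 1 := by
          rw [div_le_one hM0]; exact_mod_cast hj
        have h2 := In_dl hs0 (hxx i)
        rw [dl_mul, dl_inv] at h2
        have h3 : ((j + 1 : ℕ) : ℝ) / M * r₀ ≤ r₀ := by nlinarith
        have h4 := h1.mul hD.bd (h2.mono h3)
        have e : (dl ((j : ℝ) / M) (x i))⁻¹ * dl (((j + 1 : ℕ) : ℝ) / M) (x i) *
            ((dl (((j + 1 : ℕ) : ℝ) / M) (x i))⁻¹ * dl (((j + 1 : ℕ) : ℝ) / M) (x (i + 1))) =
            (dl ((j : ℝ) / M) (x i))⁻¹ * dl (((j + 1 : ℕ) : ℝ) / M) (x (i + 1)) := by group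
        rw [e] at h4
        exact (hφin _ _ _ h4).trans (hbig _ le_rfl)
  have hfin : Pi' E (fun i => φ (rd (x i))) k = 1 := by
    have h1 := hind M le_rfl
    have h2 : bb M = fun i => φ (rd (x i)) := by
      funext i
      show φ (rd (dl ((M : ℝ) / M) (x i))) = _
      rw [div_self hM0.ne', dl_one]
    rw [h2] at h1
    exact h1
  refine ladder_one E d R' hE h (fun i => φ (rd (x i))) k ?_ ?_ ?_ ?_ (by rw [hhk, hh0]) ?_ hfin
  · intro i _
    have := hφψ i
    rw [hd_comm] at this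
    linarith
  · intro i _
    have := hhd i
    linarith
  · intro i _
    exact (hbb i).trans hC1
  · intro i _
    have h1 := hd_tri (h i) (h (i + 1)) (φ (rd (x (i + 1))))
    have h2 := hφψ (i + 1)
    rw [hd_comm] at h2
    have h3 := hhd i
    show d (h i) (φ (rd (x (i + 1)))) ≤ R'
    linarith
  · show φ (rd (x k)) = φ (rd (x 0))
    rw [hxk]

end H8K1
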