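import Pool.Agent.H8K1.CT.ThmB3

set_option autoImplicit false
namespace H8K1
open Gardner Filter Topology NG

variable {ω ω' : Om} {ψ : NG ω → NG ω'} {K C : ℝ} {m : (NG ω → ℝ) → ℝ}

theorem norm_sq_le_sum (p : V) : ‖p‖ ^ 2 ≤ ∑ i, p i ^ 2 := by
  have h1 : ‖p‖ ≤ Real.sqrt (∑ i, p i ^ 2) := by
    rw [pi_norm_le_iff_of_nonneg (Real.sqrt_nonneg _)]
    intro i
    rw [Real.norm_eq_abs, ← Real.sqrt_sq_eq_abs]
    refine Real.sqrt_le_sqrt ?_
    exact Finset.single_le_sum (f := fun i => p i ^ 2) (fun j _ => sq_nonneg _) (Finset.mem_univ i)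
  calc ‖p‖ ^ 2 ≤ (Real.sqrt (∑ i, p i ^ 2)) ^ 2 := pow_le_pow_left₀ (norm_nonneg _) h1 2
    _ = _ := Real.sq_sqrt (Finset.sum_nonneg fun j _ => sq_nonneg _)

theorem norm_le_sum_abs (p : Z) : ‖p‖ ≤ ∑ k, |p k| := by
  rw [pi_norm_le_iff_of_nonneg (by positivity)]
  intro i
  rw [Real.norm_eq_abs]
  exact Finset.single_le_sum (f := fun i => |p i|) (fun j _ => abs_nonneg _) (Finset.mem_univ i)

/-- pointwise lower bound on displacements -/
theorem QIe.lower (h : QIe ψ K C) (b : V) (n : ℕ) (hn : 2 * C ≤ n * ‖b‖) (x : NG ω) :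
    ‖b‖ ^ 2 / (4 * K ^ 2) * (n : ℝ) ^ 2 ≤ ∑ i, Dd ψ (hv ω ((n : ℝ) • b)) i x ^ 2 +
      ∑ k, |Ed ψ (hv ω ((n : ℝ) • b)) k x| := by
  have hK := h.K0
  have hC := h.C0
  set Y := Yd ψ (hv ω ((n : ℝ) • b)) x with hY
  set r := max ‖Y.v‖ (Real.sqrt ‖Y.z‖) with hr
  have hr0 : 0 ≤ r := (norm_nonneg _).trans (le_max_left _ _)
  have hin : In Y r := by
    refine ⟨le_max_left _ _, ?_⟩
    calc ‖Y.z‖ = (Real.sqrt ‖Y.z‖) ^ 2 := (Real.sq_sqrt (norm_nonneg _)).symm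
      _ ≤ r ^ 2 := pow_le_pow_left₀ (Real.sqrt_nonneg _) (le_max_right _ _) 2
  have h1 := h.low x (x * hv ω ((n : ℝ) • b)) r hr0 hin
  rw [inv_mul_cancel_left] at h1
  have h2 := h1.1
  rw [hv_v, norm_smul, Real.norm_natCast] at h2
  have h3 : (n : ℝ) * ‖b‖ / 2 ≤ K * r := by linarith
  have h4 : r ^ 2 ≤ ‖Y.v‖ ^ 2 + ‖Y.z‖ := by
    rcases max_cases ‖Y.v‖ (Real.sqrt ‖Y.z‖) with ⟨h5, _⟩ | ⟨h5, _⟩
    · rw [hr, h5]
      have := norm_nonneg Y.z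
      linarith
    · rw [hr, h5, Real.sq_sqrt (norm_nonneg _)]
      have := sq_nonneg ‖Y.v‖
      linarith
  have h5 : ‖Y.v‖ ^ 2 ≤ ∑ i, Dd ψ (hv ω ((n : ℝ) • b)) i x ^ 2 := norm_sq_le_sum Y.v
  have h6 : ‖Y.z‖ ≤ ∑ k, |Ed ψ (hv ω ((n : ℝ) • b)) k x| := norm_le_sum_abs Y.z
  have h7 : ((n : ℝ) * ‖b‖ / 2) ^ 2 ≤ (K * r) ^ 2 := by
    refine pow_le_pow_left₀ (by positivity) h3 2
  have h8 : ‖b‖ ^ 2 / (4 * K ^ 2) * (n : ℝ) ^ 2 = ((n : ℝ) * ‖b‖ / 2) ^ 2 / K ^ 2 := by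
    field_simp
    ring
  have h9 : ((n : ℝ) * ‖b‖ / 2) ^ 2 / K ^ 2 ≤ r ^ 2 := by
    rw [div_le_iff₀ (by positivity)]
    nlinarith
  rw [h8]
  linarith

theorem abs_bil_le (ω' : Om) (p q : V) (k : Fin 2) :
    |ω' p q k| ≤ ∑ i, ∑ j, |ω' (Pi.single i 1) (Pi.single j 1) k| * (p i ^ 2 + q j ^ 2) := by
  rw [bilin_expand]
  refine (Finset.abs_sum_le_sum_abs _ _).trans (Finset.sum_le_sum fun i _ => ?_)
  refine (Finset.abs_sum_le_sum_abs _ _).trans (Finset.sum_le_sum fun j _ => ?_)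
  rw [abs_mul]
  refine mul_le_mul_of_nonneg_left ?_ (abs_nonneg _)
  rw [abs_le]
  constructor
  · nlinarith [sq_nonneg (p i + q j), sq_nonneg (p i), sq_nonneg (q j)]
  · nlinarith [sq_nonneg (p i - q j), sq_nonneg (p i), sq_nonneg (q j)]

theorem sqmean_zero (h : QIe ψ K C) (hm : IM m) (hg : Good h hm) (b : V)
    (hb : Lmap h hm b = 0) (i : I4) :
    Tendsto (fun n : ℕ => m (fun x => Dd ψ (hv ω ((n : ℝ) • b)) i x ^ 2) / (n : ℝ) ^ 2) atTop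
      (𝓝 0) := by
  refine (hg b i).congr fun n => ?_
  rw [← IsMn.div hm.mn (Bdd.pow (h.Dd_bdd _ _) 2)]
  congr 1
  funext x
  rw [hb, Pi.zero_apply, sub_zero, div_pow]

theorem Lmap_inj (h : QIe ψ K C) (hm : IM m) (hω : Alt ω) (hg : Good h hm)
    (a : V) (ha : Lmap h hm a = 0) : a = 0 := by
  by_contra hne
  have hK := h.K0
  have hC := h.C0
  have hna : 0 < ‖a‖ := norm_pos_iff.2 hne
  set c₀ := ‖a‖ ^ 2 / (4 * K ^ 2) with hc₀
  have hc₀pos : 0 < c₀ := by positivity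
  set C₁ := (K * ‖a‖ + C) ^ 2 with hC₁
  let y : ℕ → ℕ → NG ω := fun j n => hv ω ((n : ℝ) • (j : ℝ) • a)
  have hLj : ∀ j : ℕ, Lmap h hm ((j : ℝ) • a) = 0 := by
    intro j
    rw [map_smul, ha, smul_zero]
  have hysucc : ∀ j n, y (j + 1) n = y j n * y 1 n := by
    intro j n
    show hv ω ((n : ℝ) • ((j + 1 : ℕ) : ℝ) • a) =
      hv ω ((n : ℝ) • (j : ℝ) • a) * hv ω ((n : ℝ) • ((1 : ℕ) : ℝ) • a)
    rw [hv_mul_hv]
    have e1 : ω ((n : ℝ) • (j : ℝ) • a) ((n : ℝ) • ((1 : ℕ) : ℝ) • a) = 0 := by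
      simp only [map_smul, LinearMap.smul_apply, hω a, smul_zero]
    rw [e1, cz_zero, mul_one]
    congr 1
    rw [← smul_add, ← add_smul]
    push_cast
    rfl
  -- upper bound of central parts
  have hup : ∀ (k : Fin 2) (j : ℕ), 1 ≤ j → ∀ ε > 0, ∀ᶠ n : ℕ in atTop,
      m (fun x => |Ed ψ (y j n) k x|) ≤ (j * C₁ + ε) * (n : ℝ) ^ 2 := by
    intro k j hj
    induction j, hj using Nat.le_induction with
    | base =>
      intro ε hε
      filter_upwards [eventually_ge_atTop 1] with n hn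
      have hn1 : (1 : ℝ) ≤ n := by exact_mod_cast hn
      have h1 : m (fun x => |Ed ψ (y 1 n) k x|) ≤ (K * (n * ‖a‖) + C) ^ 2 := by
        have h2 : In (y 1 n) (n * ‖a‖) := by
          refine In_hv ?_
          rw [norm_smul, norm_smul, Real.norm_natCast]
          simp
        have h3 := IsMn.mono hm.mn (Bdd.abs (h.Ed_bdd (y 1 n) k)) (Bdd.const _)
          (fun x => h.Ed_le h2 k x)
        rwa [IsMn.const hm.mn] at h3
      refine h1.trans ?_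
      have h4 : (K * (n * ‖a‖) + C) ^ 2 ≤ (n * (K * ‖a‖ + C)) ^ 2 := by
        refine pow_le_pow_left₀ (by positivity) ?_ 2
        nlinarith
      refine h4.trans ?_
      rw [hC₁]
      push_cast
      nlinarith [sq_nonneg (n : ℝ)]
    | succ j hj ih =>
      intro ε hε
      have h1 := ih (ε / 3) (by positivity)
      -- cross term
      have h2 : Tendsto (fun n : ℕ => ∑ i, ∑ l, |ω' (Pi.single i 1) (Pi.single l 1) k| *
          (m (fun x => Dd ψ (y j n) i x ^ 2) / (n : ℝ) ^ 2 +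
            m (fun x => Dd ψ (y 1 n) l x ^ 2) / (n : ℝ) ^ 2)) atTop (𝓝 0) := by
        have : (0 : ℝ) = ∑ i : I4, ∑ l : I4, |ω' (Pi.single i 1) (Pi.single l 1) k| *
          ((0 : ℝ) + 0) := by simp
        rw [this]
        refine tendsto_finsetSum _ fun i _ => tendsto_finsetSum _ fun l _ => ?_
        exact ((sqmean_zero h hm hg _ (hLj j) i).add
          (sqmean_zero h hm hg _ (hLj 1) l)).const_mul _
      have h3 : ∀ᶠ n : ℕ in atTop, ∑ i, ∑ l, |ω' (Pi.single i 1) (Pi.single l 1) k| *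
          (m (fun x => Dd ψ (y j n) i x ^ 2) / (n : ℝ) ^ 2 +
            m (fun x => Dd ψ (y 1 n) l x ^ 2) / (n : ℝ) ^ 2) < ε / 3 :=
        h2.eventually (gt_mem_nhds (by positivity))
      have hbase : ∀ᶠ n : ℕ in atTop,
          m (fun x => |Ed ψ (y 1 n) k x|) ≤ (C₁ + ε / 3) * (n : ℝ) ^ 2 := by
        filter_upwards [eventually_ge_atTop 1] with n hn
        have hn1 : (1 : ℝ) ≤ n := by exact_mod_cast hn
        have h1 : m (fun x => |Ed ψ (y 1 n) k x|) ≤ (K * (n * ‖a‖) + C) ^ 2 := by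
          have h2 : In (y 1 n) (n * ‖a‖) := by
            refine In_hv ?_
            rw [norm_smul, norm_smul, Real.norm_natCast]
            simp
          have h3 := IsMn.mono hm.mn (Bdd.abs (h.Ed_bdd (y 1 n) k)) (Bdd.const _)
            (fun x => h.Ed_le h2 k x)
          rwa [IsMn.const hm.mn] at h3
        refine h1.trans ?_
        have h4 : (K * (n * ‖a‖) + C) ^ 2 ≤ (n * (K * ‖a‖ + C)) ^ 2 := by
          refine pow_le_pow_left₀ (by positivity) ?_ 2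
          nlinarith
        refine h4.trans ?_
        rw [hC₁]
        nlinarith [sq_nonneg (n : ℝ)]
      filter_upwards [h1, h3, hbase, eventually_ge_atTop 1] with n h4 h5 h6 hn
      have hn1 : (0 : ℝ) < n := by exact_mod_cast hn
      have hpt : ∀ x, |Ed ψ (y (j + 1) n) k x| ≤ (|Ed ψ (y j n) k x| +
          |Ed ψ (y 1 n) k (x * y j n)|) + ∑ i, ∑ l, |ω' (Pi.single i 1) (Pi.single l 1) k| *
          (Dd ψ (y j n) i x ^ 2 + Dd ψ (y 1 n) l (x * y j n) ^ 2) := by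
        intro x
        rw [hysucc, Ed_mul]
        refine (abs_add_le _ _).trans (add_le_add (abs_add_le _ _) ?_)
        exact abs_bil_le ω' _ _ k
      have b1 := Bdd.abs (h.Ed_bdd (y j n) k)
      have b2 := Bdd.comp (Bdd.abs (h.Ed_bdd (y 1 n) k)) (fun x => x * y j n)
      have b3 : ∀ i l, Bdd (fun x => Dd ψ (y j n) i x ^ 2 + Dd ψ (y 1 n) l (x * y j n) ^ 2) :=
        fun i l => Bdd.add (Bdd.pow (h.Dd_bdd _ _) 2)
          (Bdd.comp (Bdd.pow (h.Dd_bdd (y 1 n) l) 2) (fun x => x * y j n))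
      have b4 : Bdd (fun x => ∑ i, ∑ l, |ω' (Pi.single i 1) (Pi.single l 1) k| *
          (Dd ψ (y j n) i x ^ 2 + Dd ψ (y 1 n) l (x * y j n) ^ 2)) :=
        Bdd.sum _ fun i => Bdd.sum _ fun l => Bdd.smul _ (b3 i l)
      have h7 := IsMn.mono hm.mn (Bdd.abs (h.Ed_bdd (y (j + 1) n) k))
        (Bdd.add (Bdd.add b1 b2) b4) hpt
      rw [IsMn.add hm.mn (Bdd.add b1 b2) b4, IsMn.add hm.mn b1 b2,
        hm.inv _ (y j n) (Bdd.abs (h.Ed_bdd (y 1 n) k)),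
        IsMn.sum hm.mn _ (fun i => Bdd.sum _ fun l => Bdd.smul _ (b3 i l))] at h7
      have h8 : ∑ i, m (fun x => ∑ l, |ω' (Pi.single i 1) (Pi.single l 1) k| *
          (Dd ψ (y j n) i x ^ 2 + Dd ψ (y 1 n) l (x * y j n) ^ 2)) ≤ ε / 3 * (n : ℝ) ^ 2 := by
        have h9 : ∑ i, m (fun x => ∑ l, |ω' (Pi.single i 1) (Pi.single l 1) k| *
          (Dd ψ (y j n) i x ^ 2 + Dd ψ (y 1 n) l (x * y j n) ^ 2)) =
          (∑ i, ∑ l, |ω' (Pi.single i 1) (Pi.single l 1) k| *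
          (m (fun x => Dd ψ (y j n) i x ^ 2) / (n : ℝ) ^ 2 +
            m (fun x => Dd ψ (y 1 n) l x ^ 2) / (n : ℝ) ^ 2)) * (n : ℝ) ^ 2 := by
          rw [Finset.sum_mul]
          refine Finset.sum_congr rfl fun i _ => ?_
          rw [IsMn.sum hm.mn _ (fun l => Bdd.smul _ (b3 i l)), Finset.sum_mul]
          refine Finset.sum_congr rfl fun l _ => ?_
          rw [IsMn.smul hm.mn _ (b3 i l), IsMn.add hm.mn (Bdd.pow (h.Dd_bdd _ _) 2)
            (Bdd.comp (Bdd.pow (h.Dd_bdd (y 1 n) l) 2) (fun x => x * y j n)),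
            hm.inv (fun x => Dd ψ (y 1 n) l x ^ 2) (y j n) (Bdd.pow (h.Dd_bdd (y 1 n) l) 2)]
          field_simp
        rw [h9]
        exact mul_le_mul_of_nonneg_right h5.le (by positivity)
      refine h7.trans ?_
      push_cast
      nlinarith
  -- conclusion
  obtain ⟨j, hj⟩ := exists_nat_gt ((2 * C₁ + 3) / c₀)
  rw [div_lt_iff₀ hc₀pos] at hj
  have hC₁0 : 0 ≤ C₁ := sq_nonneg _
  have hj1 : 1 ≤ j := by
    rcases Nat.eq_zero_or_pos j with rfl | h0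
    · simp at hj
      linarith
    · exact h0
  have hj1' : (1 : ℝ) ≤ j := by exact_mod_cast hj1
  have hsq : ∀ᶠ n : ℕ in atTop, ∑ i, m (fun x => Dd ψ (y j n) i x ^ 2) / (n : ℝ) ^ 2 < 1 := by
    have : Tendsto (fun n : ℕ => ∑ i, m (fun x => Dd ψ (y j n) i x ^ 2) / (n : ℝ) ^ 2) atTop
        (𝓝 (∑ i : I4, (0 : ℝ))) :=
      tendsto_finsetSum _ fun i _ => sqmean_zero h hm hg _ (hLj j) i
    rw [Finset.sum_const_zero] at this
    exact this.eventually (gt_mem_nhds one_pos)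
  obtain ⟨N, hN⟩ := exists_nat_gt (2 * C / ‖(j : ℝ) • a‖)
  have hnja : 0 < ‖(j : ℝ) • a‖ := by
    rw [norm_smul, Real.norm_natCast]
    positivity
  rw [div_lt_iff₀ hnja] at hN
  obtain ⟨n, h1, h2, h3, h4, h5⟩ := ((hup 0 j hj1 1 one_pos).and ((hup 1 j hj1 1 one_pos).and
    (hsq.and ((eventually_ge_atTop N).and (eventually_ge_atTop 1))))).exists
  have hn1 : (0 : ℝ) < n := by exact_mod_cast h5
  have hNn : (N : ℝ) ≤ n := by exact_mod_cast h4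
  have h6 : 2 * C ≤ n * ‖(j : ℝ) • a‖ := by
    have : (N : ℝ) * ‖(j : ℝ) • a‖ ≤ n * ‖(j : ℝ) • a‖ := by gcongr
    linarith
  have h7 := fun x => h.lower ((j : ℝ) • a) n h6 x
  have bD : ∀ i, Bdd (fun x => Dd ψ (y j n) i x ^ 2) := fun i => Bdd.pow (h.Dd_bdd _ _) 2
  have bE : ∀ k, Bdd (fun x => |Ed ψ (y j n) k x|) := fun k => Bdd.abs (h.Ed_bdd _ _)
  have h8 := IsMn.mono hm.mn (Bdd.const _) (Bdd.add (Bdd.sum _ bD) (Bdd.sum _ bE)) h7
  rw [IsMn.const hm.mn, IsMn.add hm.mn (Bdd.sum _ bD) (Bdd.sum _ bE), IsMn.sum hm.mn _ bD,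
    IsMn.sum hm.mn _ bE, Fin.sum_univ_two] at h8
  have h9 : ∑ i, m (fun x => Dd ψ (y j n) i x ^ 2) < (n : ℝ) ^ 2 := by
    rw [← Finset.sum_div, div_lt_one (by positivity)] at h3
    exact h3
  have h10 : ‖(j : ℝ) • a‖ ^ 2 / (4 * K ^ 2) = c₀ * (j : ℝ) ^ 2 := by
    rw [norm_smul, Real.norm_natCast, hc₀]
    ring
  rw [h10] at h8
  have h11 : c₀ * (j : ℝ) ^ 2 * (n : ℝ) ^ 2 ≤ (2 * (j * C₁) + 3) * (n : ℝ) ^ 2 := by
    nlinarith
  have h12 : c₀ * (j : ℝ) ^ 2 ≤ 2 * (j * C₁) + 3 := le_of_mul_le_mul_right h11 (by positivity)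
  nlinarith

/-- The rigidity theorem. -/
theorem rigidity (h : QIe ψ K C) (hω : Alt ω) (hω' : Alt ω') :
    ∃ L : V →ₗ[ℝ] V, (∀ a, L a = 0 → a = 0) ∧
      ∀ a b a' b', ω a b = ω a' b' → ω' (L a) (L b) = ω' (L a') (L b') := by
  obtain ⟨m, hm, hg⟩ := exists_good_mean h hω
  exact ⟨Lmap h hm, fun a ha => Lmap_inj h hm hω hg a ha,
    fun a b a' b' hab => Lmap_area h hm hω hω' hg a b a' b' hab⟩

end H8K1
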