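import Pool.Agent.H8K1.CT.FP2
import Pool.Agent.H8K1.CT.ThmB4

set_option autoImplicit false
namespace H8K1
open NG

/-- quasi-isometry data to a finitely presented marked group -/
def Pres (G : SimpleGraph Vn) (n : ℕ) (Rel : Finset (FG n)) : Prop :=
  ∃ (φ : Vn → FG n ⧸ Subgroup.normalClosure (Rel : Set (FG n))) (K C : ℝ), 0 < K ∧ 0 ≤ C ∧
    (∀ a b, ∃ w : FG n, (w.norm : ℝ) ≤ K * G.dist a b + C ∧
      φ a * QuotientGroup.mk' _ w = φ b) ∧
    (∀ a b (w : FG n), φ a * QuotientGroup.mk' _ w = φ b → (G.dist a b : ℝ) ≤ K * w.norm + C) ∧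
    (∀ g, ∃ a, ∃ w : FG n, (w.norm : ℝ) ≤ C ∧ φ a * QuotientGroup.mk' _ w = g)

variable {ω : Om} {W : ℝ}

theorem pres_of_QI (hD : Dat ω W) {H : Type} [Group H] {S : Set H} (hfin : S.Finite)
    (hS : Subgroup.closure S = ⊤)
    (φ : Vn → H) (K C : ℝ) (hK : 0 < K)
    (hlow : ∀ a b : Vn, ((GG ω W).dist a b : ℝ) / K - C ≤ ((Cay S).dist (φ a) (φ b) : ℝ))
    (hup : ∀ a b : Vn, ((Cay S).dist (φ a) (φ b) : ℝ) ≤ K * ((GG ω W).dist a b : ℝ) + C)
    (hsurj : ∀ h : H, ∃ a : Vn, ((Cay S).dist (φ a) h : ℝ) ≤ C) :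
    ∃ (n : ℕ) (Rel : Finset (FG n)), Pres (GG ω W) n Rel := by
  classical
  have hC0 : 0 ≤ C := by
    obtain ⟨a, ha⟩ := hsurj 1
    exact (by positivity : (0 : ℝ) ≤ ((Cay S).dist (φ a) 1 : ℝ)).trans ha
  obtain ⟨n, σ, hσ, hσ'⟩ : ∃ (n : ℕ) (σ : Fin n → H), (∀ i, σ i ∈ S) ∧ (∀ s ∈ S, ∃ i, σ i = s) := by
    let F := hfin.toFinset
    let e := F.equivFin
    refine ⟨F.card, fun i => (e.symm i : H), ?_, ?_⟩
    · intro i
      exact hfin.mem_toFinset.1 (e.symm i).2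
    · intro s hs
      refine ⟨e ⟨s, hfin.mem_toFinset.2 hs⟩, ?_⟩
      simp
  obtain ⟨R, hR⟩ := fin_pres hD hσ hσ' hS φ K C hK hlow hup hsurj
  let Rel : Finset (FG n) := (Rl_finite σ R).toFinset
  have hRel : (Rel : Set (FG n)) = Rl σ R := (Rl_finite σ R).coe_toFinset
  have hker : ∀ w : FG n, FreeGroup.lift σ w = 1 ↔
      w ∈ Subgroup.normalClosure (Rel : Set (FG n)) := by
    intro w
    constructor
    · intro h
      rw [hRel]
      exact hR w h
    · intro h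
      rw [hRel] at h
      have h1 : Subgroup.normalClosure (Rl σ R) ≤ (FreeGroup.lift σ).ker := by
        refine Subgroup.normalClosure_le_normal ?_
        intro r hr
        exact hr.1
      exact h1 h
  have hmk : ∀ w w' : FG n, QuotientGroup.mk' (Subgroup.normalClosure (Rel : Set (FG n))) w =
      QuotientGroup.mk' _ w' ↔ FreeGroup.lift σ w = FreeGroup.lift σ w' := by
    intro w w'
    constructor
    · intro h
      have h1 := QuotientGroup.eq.1 h
      rw [← hker, map_mul, map_inv, inv_mul_eq_one] at h1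
      exact h1
    · intro h
      refine QuotientGroup.eq.2 ?_
      rw [← hker, map_mul, map_inv, inv_mul_eq_one]
      exact h
  choose u hu using fun a => lift_surj hσ' hS (φ a)
  refine ⟨n, Rel, fun a => QuotientGroup.mk' _ (u a), max K 1, C + K * C, by positivity,
    by positivity, ?_, ?_, ?_⟩
  · intro a b
    obtain ⟨w, hw1, hw2⟩ := exists_word hσ hσ' hS (φ a) (φ b)
    refine ⟨w, ?_, ?_⟩
    · have h1 : (w.norm : ℝ) ≤ ((Cay S).dist (φ a) (φ b) : ℝ) := by exact_mod_cast hw1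
      have h2 := hup a b
      have h3 : K * ((GG ω W).dist a b : ℝ) ≤ max K 1 * (GG ω W).dist a b := by
        gcongr
        exact le_max_left _ _
      have h4 : 0 ≤ K * C := by positivity
      linarith
    · rw [← map_mul, hmk, map_mul, hu, hu]
      exact hw2
  · intro a b w h
    rw [← map_mul, hmk, map_mul, hu, hu] at h
    have h1 := cay_dist_le hσ w (φ a) (φ b) h
    have h2 : ((Cay S).dist (φ a) (φ b) : ℝ) ≤ w.norm := by exact_mod_cast h1
    have h3 := (hlow a b).trans h2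
    have h4 : ((GG ω W).dist a b : ℝ) / K ≤ w.norm + C := by linarith
    rw [div_le_iff₀ hK] at h4
    have h5 : K * (w.norm : ℝ) ≤ max K 1 * w.norm := by
      gcongr
      exact le_max_left _ _
    nlinarith
  · intro g
    obtain ⟨w, rfl⟩ := QuotientGroup.mk'_surjective _ g
    obtain ⟨a, ha⟩ := hsurj (FreeGroup.lift σ w)
    obtain ⟨v, hv1, hv2⟩ := exists_word hσ hσ' hS (φ a) (FreeGroup.lift σ w)
    refine ⟨a, v, ?_, ?_⟩
    · have h1 : (v.norm : ℝ) ≤ ((Cay S).dist (φ a) (FreeGroup.lift σ w) : ℝ) := by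
        exact_mod_cast hv1
      have h4 : 0 ≤ K * C := by positivity
      linarith
    · rw [← map_mul, hmk, map_mul, hu]
      exact hv2

theorem QIe_of_pres {ω' : Om} {W' : ℝ} (hD : Dat ω W) (hD' : Dat ω' W') {n : ℕ}
    {Rel : Finset (FG n)} (h1 : Pres (GG ω W) n Rel) (h2 : Pres (GG ω' W') n Rel) :
    ∃ (ψ : NG ω → NG ω') (K C : ℝ), QIe ψ K C := by
  obtain ⟨φ₁, K₁, C₁, hK₁, hC₁, u1, l1, s1⟩ := h1
  obtain ⟨φ₂, K₂, C₂, hK₂, hC₂, u2, l2, s2⟩ := h2
  have hW0 := hD.bd.1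
  have hW0' := hD'.bd.1
  choose ψ u hu hψ using fun x => s2 (φ₁ x)
  set B := 3 * (1 + W) ^ 3 with hB
  set B' := 3 * (1 + W') ^ 3 with hB'
  have hB0 : 0 ≤ B := by positivity
  have hB0' : 0 ≤ B' := by positivity
  let K := 1 + B' * (K₂ * (K₁ * 9)) + (1 + W) * ((1 + W) * (B * (K₁ * (K₂ * 9))))
  let C := B' * (K₂ * (2 * C₂ + K₁ * 9 + C₁) + C₂) +
    (1 + W) * ((1 + W) * (1 + B * (K₁ * (2 * C₂ + K₂ * 9 + C₂) + C₁)) + 1)
  refine ⟨fun g => emb ω' (ψ (rd g)), K, C, ?_, ?_, ?_, ?_⟩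
  · positivity
  · positivity
  · intro x y r hr hin
    have e1 := dist_le_real hD hin
    obtain ⟨w, hw1, hw2⟩ := u1 (rd x) (rd y)
    have e2 : φ₂ (ψ (rd x)) * QuotientGroup.mk' _ (u (rd x) * w * (u (rd y))⁻¹) =
        φ₂ (ψ (rd y)) := by
      rw [map_mul, map_mul, map_inv, ← mul_assoc, ← mul_assoc, hψ, hw2, ← hψ (rd y),
        mul_inv_cancel_right]
    have e3 := l2 _ _ _ e2
    have e4 : (((u (rd x) * w * (u (rd y))⁻¹).norm : ℕ) : ℝ) ≤
        (u (rd x)).norm + w.norm + (u (rd y)).norm := by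
      have h2 := (FreeGroup.norm_mul_le (u (rd x) * w) (u (rd y))⁻¹).trans
          (Nat.add_le_add_right (FreeGroup.norm_mul_le _ _) _)
      rw [FreeGroup.norm_inv_eq] at h2
      exact_mod_cast h2
    have e5 := hu (rd x)
    have e6 := hu (rd y)
    have e7 : ((GG ω' W').dist (ψ (rd x)) (ψ (rd y)) : ℝ) ≤
        K₂ * (2 * C₂ + (K₁ * (9 * r + 9) + C₁)) + C₂ := by
      refine e3.trans ?_
      have h3 : (w.norm : ℝ) ≤ K₁ * (9 * r + 9) + C₁ := by
        refine hw1.trans ?_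
        have := mul_le_mul_of_nonneg_left e1 hK₁.le
        linarith
      have h4 : (((u (rd x) * w * (u (rd y))⁻¹).norm : ℕ) : ℝ) ≤
        2 * C₂ + (K₁ * (9 * r + 9) + C₁) := by linarith
      have := mul_le_mul_of_nonneg_left h4 hK₂.le
      linarith
    refine (In_dist hD' (ψ (rd x)) (ψ (rd y))).mono ?_
    rw [← hB']
    have h5 := mul_le_mul_of_nonneg_left e7 hB0'
    refine h5.trans ?_
    have h6 : B' * (K₂ * (2 * C₂ + (K₁ * (9 * r + 9) + C₁)) + C₂) =
      (B' * (K₂ * (K₁ * 9))) * r + B' * (K₂ * (2 * C₂ + K₁ * 9 + C₁) + C₂) := by ring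
    rw [h6]
    have h7 : 0 ≤ (1 + (1 + W) * ((1 + W) * (B * (K₁ * (K₂ * 9))))) * r := by positivity
    have h8 : 0 ≤ (1 + W) * ((1 + W) * (1 + B * (K₁ * (2 * C₂ + K₂ * 9 + C₂) + C₁)) + 1) := by
      positivity
    show _ ≤ K * r + C
    simp only [K, C]
    linarith
  · intro x y r hr hin
    have e1 := dist_le_real hD' hin
    rw [rd_emb hD'.alt, rd_emb hD'.alt] at e1
    obtain ⟨w, hw1, hw2⟩ := u2 (ψ (rd x)) (ψ (rd y))
    have e2 : φ₁ (rd x) * QuotientGroup.mk' _ ((u (rd x))⁻¹ * w * u (rd y)) =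
        φ₁ (rd y) := by
      rw [map_mul, map_mul, map_inv, ← mul_assoc, ← mul_assoc, ← hψ (rd x), mul_inv_cancel_right,
        hw2, hψ]
    have e3 := l1 _ _ _ e2
    have e4 : ((((u (rd x))⁻¹ * w * u (rd y)).norm : ℕ) : ℝ) ≤
        (u (rd x)).norm + w.norm + (u (rd y)).norm := by
      have h2 := (FreeGroup.norm_mul_le ((u (rd x))⁻¹ * w) (u (rd y))).trans
          (Nat.add_le_add_right (FreeGroup.norm_mul_le _ _) _)
      rw [FreeGroup.norm_inv_eq] at h2
      exact_mod_cast h2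
    have e5 := hu (rd x)
    have e6 := hu (rd y)
    have e7 : ((GG ω W).dist (rd x) (rd y) : ℝ) ≤
        K₁ * (2 * C₂ + (K₂ * (9 * r + 9) + C₂)) + C₁ := by
      refine e3.trans ?_
      have h3 : (w.norm : ℝ) ≤ K₂ * (9 * r + 9) + C₂ := by
        refine hw1.trans ?_
        have := mul_le_mul_of_nonneg_left e1 hK₂.le
        linarith
      have h4 : ((((u (rd x))⁻¹ * w * u (rd y)).norm : ℕ) : ℝ) ≤
        2 * C₂ + (K₂ * (9 * r + 9) + C₂) := by linarith
      have := mul_le_mul_of_nonneg_left h4 hK₁.le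
      linarith
    have h5 := In_dist hD (rd x) (rd y)
    rw [← hB] at h5
    have h6 := h5.mono (mul_le_mul_of_nonneg_left e7 hB0)
    have h7 := (rd_close hD.alt x)
    have h8 := (rd_close hD.alt y).inv hD.alt
    have h9 := (h7.mul hD.bd h6).mul hD.bd h8
    have e : x⁻¹ * emb ω (rd x) * ((emb ω (rd x))⁻¹ * emb ω (rd y)) * (y⁻¹ * emb ω (rd y))⁻¹ =
        x⁻¹ * y := by group
    rw [e] at h9
    refine h9.mono ?_
    have h10 : (1 + W) * ((1 + W) * (1 + B * (K₁ * (2 * C₂ + (K₂ * (9 * r + 9) + C₂)) + C₁)) + 1) =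
      ((1 + W) * ((1 + W) * (B * (K₁ * (K₂ * 9))))) * r +
      (1 + W) * ((1 + W) * (1 + B * (K₁ * (2 * C₂ + K₂ * 9 + C₂) + C₁)) + 1) := by ring
    rw [h10]
    have h11 : 0 ≤ (1 + B' * (K₂ * (K₁ * 9))) * r := by positivity
    have h12 : 0 ≤ B' * (K₂ * (2 * C₂ + K₁ * 9 + C₁) + C₂) := by positivity
    show _ ≤ K * r + C
    simp only [K, C]
    linarith

theorem om_dat (t : ℝ) : ∃ W, Dat (om t) W := by
  obtain ⟨W, hW⟩ := exists_BdW (om t)
  exact ⟨W, om_alt t, hW, om_gen t⟩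

/-- the bound attached to a parameter -/
noncomputable def Wt (t : ℝ) : ℝ := (om_dat t).choose

theorem Wt_dat (t : ℝ) : Dat (om t) (Wt t) := (om_dat t).choose_spec

/-- the key statement: some parameter is not quasi-isometric to any group -/
theorem exists_param : ∃ t : ℝ, ∀ (n : ℕ) (Rel : Finset (FG n)), ¬ Pres (GG (om t) (Wt t)) n Rel := by
  by_contra hcon
  push Not at hcon
  choose n Rel h using hcon
  have hinj : Function.Injective
      (fun t : Set.Ioo (1 : ℝ) 2 => (⟨n t, Rel t⟩ : Σ n : ℕ, Finset (FreeGroup (Fin n)))) := by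
    rintro ⟨s, hs⟩ ⟨t, ht⟩ hst
    have h1 := h s
    have h2 := h t
    have h3 : Pres (GG (om s) (Wt s)) (n t) (Rel t) := by
      simp only at hst
      have key : ∀ (p q : Σ n : ℕ, Finset (FreeGroup (Fin n))), p = q →
          Pres (GG (om s) (Wt s)) p.1 p.2 → Pres (GG (om s) (Wt s)) q.1 q.2 := by
        rintro p q rfl hp
        exact hp
      exact key _ _ hst h1
    obtain ⟨ψ, K, C, hψ⟩ := QIe_of_pres (Wt_dat t) (Wt_dat s) h2 h3
    obtain ⟨L, hL, hLa⟩ := rigidity hψ (om_alt t) (om_alt s)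
    have := alg s t hs.1 hs.2 ht.1 ht.2 L hL hLa
    exact Subtype.ext this
  have hc : Countable (Set.Ioo (1 : ℝ) 2) := hinj.countable
  have h2 : (Set.Ioo (1 : ℝ) 2).Countable := hc
  rw [Cardinal.Real.Ioo_countable_iff] at h2
  norm_num at h2

end H8K1
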