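import Pool.Agent.H8K1.CT.Alg

set_option autoImplicit false
namespace H8K1
open NG

/-- integer points -/
abbrev Vn := (I4 → ℤ) × (Fin 2 → ℤ)

variable {ω : Om}

/-- inclusion of integer points -/
def emb (ω : Om) (x : Vn) : NG ω := ⟨fun i => (x.1 i : ℝ), fun k => (x.2 k : ℝ)⟩

/-- rounding of a vector -/
noncomputable def rv (v : V) : I4 → ℤ := fun i => round (v i)
/-- the rounded vector, as a real vector -/
noncomputable def rvr (v : V) : V := fun i => ((rv v i : ℤ) : ℝ)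

/-- rounding -/
noncomputable def rd (g : NG ω) : Vn :=
  (rv g.v, fun k => round ((g.z + ω g.v (rvr g.v)) k))

theorem rd_close (hω : Alt ω) (g : NG ω) : In (g⁻¹ * emb ω (rd g)) 1 := by
  constructor
  · rw [mul_v, inv_v, pi_norm_le_iff_of_nonneg zero_le_one]
    intro i
    have h1 : (-g.v + (emb ω (rd g)).v) i = -(g.v i - round (g.v i)) := by
      show -(g.v i) + ((round (g.v i) : ℤ) : ℝ) = _
      ring
    rw [h1, norm_neg, Real.norm_eq_abs]
    exact (abs_sub_round _).trans (by norm_num)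
  · rw [mul_z, inv_z, inv_v, one_pow, pi_norm_le_iff_of_nonneg zero_le_one]
    intro k
    have h1 : (-g.z + ω g.v g.v + (emb ω (rd g)).z + ω (-g.v) (emb ω (rd g)).v) k =
        -((g.z + ω g.v (rvr g.v)) k - round ((g.z + ω g.v (rvr g.v)) k)) := by
      have e1 : (emb ω (rd g)).v = rvr g.v := rfl
      have e2 : (emb ω (rd g)).z k = round ((g.z + ω g.v (rvr g.v)) k) := rfl
      rw [e1, hω g.v]
      simp only [Pi.add_apply, Pi.neg_apply, map_neg, LinearMap.neg_apply, Pi.zero_apply, e2]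
      ring
    rw [h1, norm_neg, Real.norm_eq_abs]
    exact (abs_sub_round _).trans (by norm_num)

theorem rd_emb (hω : Alt ω) (x : Vn) : rd (emb ω x) = x := by
  have h1 : rv (emb ω x).v = x.1 := by
    funext i
    exact round_intCast (x.1 i)
  have h2 : rvr (emb ω x).v = (emb ω x).v := by
    funext i
    show ((rv (emb ω x).v i : ℤ) : ℝ) = _
    rw [h1]
    rfl
  refine Prod.ext h1 ?_
  funext k
  show round (((emb ω x).z + ω (emb ω x).v (rvr (emb ω x).v)) k) = x.2 k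
  rw [h2, hω, add_zero]
  exact round_intCast (x.2 k)

/-- the graph -/
def Gr (ω : Om) (A : ℝ) : SimpleGraph Vn :=
  SimpleGraph.fromRel (fun x y => In ((emb ω x)⁻¹ * emb ω y) A)

theorem Gr_adj (hω : Alt ω) {A : ℝ} {x y : Vn} (h : (Gr ω A).Adj x y) :
    In ((emb ω x)⁻¹ * emb ω y) A := by
  rw [Gr, SimpleGraph.fromRel_adj] at h
  rcases h.2 with h | h
  · exact h
  · have := h.inv hω
    rwa [mul_inv_rev, inv_inv] at this

/-- reachability in at most n steps after right translation by g -/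
def Rch (ω : Om) (A : ℝ) (n : ℕ) (g : NG ω) : Prop :=
  ∀ x : NG ω, ∃ w : (Gr ω A).Walk (rd x) (rd (x * g)), w.length ≤ n

theorem Rch.mul {A : ℝ} {m n : ℕ} {g h : NG ω} (hg : Rch ω A m g) (hh : Rch ω A n h) :
    Rch ω A (m + n) (g * h) := by
  intro x
  obtain ⟨w1, h1⟩ := hg x
  obtain ⟨w2, h2⟩ := hh (x * g)
  refine ⟨(w1.append w2).copy rfl (by rw [mul_assoc]), ?_⟩
  rw [SimpleGraph.Walk.length_copy, SimpleGraph.Walk.length_append]
  omega

theorem Rch.mono {A : ℝ} {m n : ℕ} {g : NG ω} (hg : Rch ω A m g) (h : m ≤ n) :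
    Rch ω A n g := by
  intro x
  obtain ⟨w1, h1⟩ := hg x
  exact ⟨w1, h1.trans h⟩

theorem Rch_one {A : ℝ} (n : ℕ) : Rch ω A n (1 : NG ω) := by
  intro x
  refine ⟨SimpleGraph.Walk.nil.copy rfl (by rw [mul_one]), ?_⟩
  rw [SimpleGraph.Walk.length_copy]
  simp

theorem Rch_small (hω : Alt ω) {W : ℝ} (hW : BdW ω W) {g : NG ω} (hg : In g 1) :
    Rch ω (3 * (1 + W) ^ 2) 1 g := by
  intro x
  by_cases he : rd x = rd (x * g)
  · refine ⟨SimpleGraph.Walk.nil.copy rfl he, ?_⟩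
    rw [SimpleGraph.Walk.length_copy]
    simp
  · have hadj : (Gr ω (3 * (1 + W) ^ 2)).Adj (rd x) (rd (x * g)) := by
      rw [Gr, SimpleGraph.fromRel_adj]
      refine ⟨he, Or.inl ?_⟩
      have h1 := (rd_close hω x).inv hω
      have h2 := rd_close hω (x * g)
      have h3 := (h1.mul hW hg).mul hW h2
      have e : (x⁻¹ * emb ω (rd x))⁻¹ * g * ((x * g)⁻¹ * emb ω (rd (x * g))) =
          (emb ω (rd x))⁻¹ * emb ω (rd (x * g)) := by group
      rw [e] at h3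
      refine h3.mono ?_
      have := hW.1
      nlinarith
    exact ⟨SimpleGraph.Walk.cons hadj SimpleGraph.Walk.nil, by simp⟩

theorem Rch_hv (hω : Alt ω) {W : ℝ} (hW : BdW ω W) (n : ℕ) : ∀ a : V, ‖a‖ ≤ n →
    Rch ω (3 * (1 + W) ^ 2) n (hv ω a) := by
  induction n with
  | zero =>
    intro a ha
    have : a = 0 := by
      rw [← norm_le_zero_iff]
      simpa using ha
    rw [this, hv_zero]
    exact Rch_one 0
  | succ n ih =>
    intro a ha
    have hn : (0 : ℝ) < (n : ℝ) + 1 := by positivity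
    have h1 : hv ω a = hv ω (((n : ℝ) / (n + 1)) • a) * hv ω ((1 / ((n : ℝ) + 1)) • a) := by
      rw [hv_mul_hv, ← add_smul]
      have e1 : ω (((n : ℝ) / (n + 1)) • a) ((1 / ((n : ℝ) + 1)) • a) = 0 := by
        simp only [map_smul, LinearMap.smul_apply, hω a, smul_zero]
      have e2 : (n : ℝ) / (n + 1) + 1 / (n + 1) = 1 := by field_simp
      rw [e1, e2, cz_zero, one_smul, mul_one]
    rw [h1]
    push_cast at ha
    refine Rch.mul (ih _ ?_) (Rch_small hω hW (In_hv ?_))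
    · rw [norm_smul, Real.norm_eq_abs, abs_of_nonneg (by positivity)]
      calc (n : ℝ) / (n + 1) * ‖a‖ ≤ (n : ℝ) / (n + 1) * (n + 1) := by gcongr
        _ = n := by field_simp
    · rw [norm_smul, Real.norm_eq_abs, abs_of_nonneg (by positivity)]
      calc 1 / ((n : ℝ) + 1) * ‖a‖ ≤ 1 / ((n : ℝ) + 1) * (n + 1) := by gcongr
        _ = 1 := by field_simp

theorem Rch_cz2 (hω : Alt ω) {W : ℝ} (hW : BdW ω W) (n : ℕ) (a b : V) (ha : ‖a‖ ≤ n)
    (hb : ‖b‖ ≤ n) : Rch ω (3 * (1 + W) ^ 2) (n + n + (n + n)) (cz ω ((2 : ℝ) • ω a b)) := by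
  have h1 : cz ω ((2 : ℝ) • ω a b) = hv ω a * hv ω b * (hv ω (-a) * hv ω (-b)) := by
    ext1
    · simp only [mul_v, hv_v, cz_v]
      abel
    · simp only [mul_z, mul_v, hv_v, hv_z, cz_z, map_add, map_neg, LinearMap.add_apply,
        LinearMap.neg_apply, hω a, hω b, hω.swap a b, two_smul]
      abel
  rw [h1]
  refine Rch.mul (Rch.mul (Rch_hv hω hW n a ha) (Rch_hv hω hW n b hb))
    (Rch.mul (Rch_hv hω hW n (-a) ?_) (Rch_hv hω hW n (-b) ?_))
  · rwa [norm_neg]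
  · rwa [norm_neg]

/-- the generation property -/
def Gen (ω : Om) : Prop := ∀ (n : ℕ) (c : Z), ‖c‖ ≤ (n : ℝ) ^ 2 → ∃ a b a' b' : V,
  ‖a‖ ≤ n ∧ ‖b‖ ≤ n ∧ ‖a'‖ ≤ n ∧ ‖b'‖ ≤ n ∧ c = (2 : ℝ) • ω a b + (2 : ℝ) • ω a' b'

theorem norm_eX (i : Fin 4) (r : ℝ) (hr : 0 ≤ r) : ‖r • eX i‖ ≤ r := by
  rw [pi_norm_le_iff_of_nonneg hr]
  intro j
  rw [Pi.smul_apply, smul_eq_mul, norm_mul, Real.norm_eq_abs, abs_of_nonneg hr]
  have : ‖(eX i) j‖ ≤ 1 := by
    rw [eX, Pi.single_apply]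
    split_ifs <;> simp
  nlinarith [norm_nonneg ((eX i) j)]

theorem norm_eY (i : Fin 4) (r : ℝ) : ‖r • eY i‖ ≤ |r| := by
  rw [pi_norm_le_iff_of_nonneg (abs_nonneg r)]
  intro j
  rw [Pi.smul_apply, smul_eq_mul, norm_mul, Real.norm_eq_abs]
  have : ‖(eY i) j‖ ≤ 1 := by
    rw [eY, Pi.single_apply]
    split_ifs <;> simp
  nlinarith [norm_nonneg ((eY i) j), abs_nonneg r]

theorem om_gen (t : ℝ) : Gen (om t) := by
  intro n c hc
  have hn : (0 : ℝ) ≤ n := by positivity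
  have hb : ∀ k, |c k / (2 * n)| ≤ n := by
    intro k
    have h1 : |c k| ≤ (n : ℝ) ^ 2 := (norm_le_pi_norm c k).trans hc
    rcases Nat.eq_zero_or_pos n with rfl | h0
    · simp
    · have h0' : (0 : ℝ) < n := by exact_mod_cast h0
      rw [abs_div, abs_of_pos (by positivity : (0 : ℝ) < 2 * n), div_le_iff₀ (by positivity)]
      nlinarith
  refine ⟨(n : ℝ) • eX 0, (c 0 / (2 * n)) • eY 0, (n : ℝ) • eX 1, (c 1 / (2 * n)) • eY 1,
    norm_eX _ _ hn, (norm_eY _ _).trans (hb 0), norm_eX _ _ hn, (norm_eY _ _).trans (hb 1), ?_⟩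
  rcases Nat.eq_zero_or_pos n with rfl | h0
  · have : c = 0 := by
      rw [← norm_le_zero_iff]
      simpa using hc
    rw [this]
    simp
  · have h0' : (n : ℝ) ≠ 0 := by
      have : (0 : ℝ) < n := by exact_mod_cast h0
      exact this.ne'
    simp only [map_smul, LinearMap.smul_apply, om_eX, eY_app, if_true, one_smul]
    funext k
    fin_cases k
    · simp [vv]
      field_simp
    · simp [vv]
      field_simp

theorem Rch_In (hω : Alt ω) {W : ℝ} (hW : BdW ω W) (hG : Gen ω) {g : NG ω} {r : ℝ}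
    (hg : In g r) : Rch ω (3 * (1 + W) ^ 2) (9 * ⌈r⌉₊) g := by
  have hr := hg.nonneg
  have h1 : r ≤ ⌈r⌉₊ := Nat.le_ceil r
  have h2 : ‖g.z‖ ≤ (⌈r⌉₊ : ℝ) ^ 2 := hg.2.trans (pow_le_pow_left₀ hr h1 2)
  obtain ⟨a, b, a', b', ha, hb, ha', hb', hc⟩ := hG ⌈r⌉₊ g.z h2
  rw [eq_hv_mul_cz g, hc, ← cz_mul_cz]
  refine ((Rch_hv hω hW ⌈r⌉₊ g.v (hg.1.trans h1)).mul
    ((Rch_cz2 hω hW _ a b ha hb).mul (Rch_cz2 hω hW _ a' b' ha' hb'))).mono ?_
  omega

end H8K1
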