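import Pool.Agent.H8K1.CT.Graph1

set_option autoImplicit false
namespace H8K1
open NG

/-- data package -/
structure Dat (ω : Om) (W : ℝ) : Prop where
  alt : Alt ω
  bd : BdW ω W
  gen : Gen ω

variable {ω : Om} {W : ℝ}

/-- the graph of the data -/
abbrev GG (ω : Om) (W : ℝ) := Gr ω (3 * (1 + W) ^ 2)

theorem exists_In' (y : NG ω) : ∃ r, 0 ≤ r ∧ In y r := by
  refine ⟨‖y.v‖ + ‖y.z‖ + 1, by positivity, ?_, ?_⟩
  · have := norm_nonneg y.z
    linarith
  · nlinarith [norm_nonneg y.z, norm_nonneg y.v, sq_nonneg (‖y.v‖ + ‖y.z‖)]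

theorem exists_walk (hD : Dat ω W) {g h : NG ω} {r : ℝ} (hr : In (g⁻¹ * h) r) :
    ∃ w : (GG ω W).Walk (rd g) (rd h), w.length ≤ 9 * ⌈r⌉₊ := by
  obtain ⟨w, hw⟩ := Rch_In hD.alt hD.bd hD.gen hr g
  refine ⟨w.copy rfl (by rw [mul_inv_cancel_left]), ?_⟩
  rw [SimpleGraph.Walk.length_copy]
  exact hw

theorem conn (hD : Dat ω W) : (GG ω W).Connected := by
  rw [SimpleGraph.connected_iff]
  refine ⟨fun x y => ?_, ⟨((0 : I4 → ℤ), (0 : Fin 2 → ℤ))⟩⟩
  obtain ⟨r, _, hr⟩ := exists_In' ((emb ω x)⁻¹ * emb ω y)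
  obtain ⟨w, _⟩ := exists_walk hD hr
  exact ⟨w.copy (rd_emb hD.alt x) (rd_emb hD.alt y)⟩

theorem dist_le (hD : Dat ω W) {g h : NG ω} {r : ℝ} (hr : In (g⁻¹ * h) r) :
    (GG ω W).dist (rd g) (rd h) ≤ 9 * ⌈r⌉₊ := by
  obtain ⟨w, hw⟩ := exists_walk hD hr
  exact (SimpleGraph.dist_le w).trans hw

theorem dist_le' (hD : Dat ω W) {x y : Vn} {r : ℝ} (hr : In ((emb ω x)⁻¹ * emb ω y) r) :
    (GG ω W).dist x y ≤ 9 * ⌈r⌉₊ := by
  have := dist_le hD hr
  rwa [rd_emb hD.alt, rd_emb hD.alt] at this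

theorem dist_le_real (hD : Dat ω W) {g h : NG ω} {r : ℝ} (hr : In (g⁻¹ * h) r) :
    ((GG ω W).dist (rd g) (rd h) : ℝ) ≤ 9 * r + 9 := by
  have h1 : ((GG ω W).dist (rd g) (rd h) : ℝ) ≤ ((9 * ⌈r⌉₊ : ℕ) : ℝ) := by
    exact_mod_cast dist_le hD hr
  have h2 := Nat.ceil_lt_add_one hr.nonneg
  push_cast at h1
  linarith

/-- length control along walks -/
theorem walk_In (hD : Dat ω W) {A : ℝ} (hA : 0 ≤ A) {x y : Vn} (w : (Gr ω A).Walk x y) :
    ‖((emb ω x)⁻¹ * emb ω y).v‖ ≤ w.length * A ∧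
    ‖((emb ω x)⁻¹ * emb ω y).z‖ ≤ (1 + W) * A ^ 2 * (w.length : ℝ) ^ 2 := by
  have hW0 := hD.bd.1
  induction w with
  | nil =>
    rw [inv_mul_cancel, one_v, one_z]
    simp
  | @cons a b c hadj p ih =>
    have h1 := Gr_adj hD.alt hadj
    have e : (emb ω a)⁻¹ * emb ω c = ((emb ω a)⁻¹ * emb ω b) * ((emb ω b)⁻¹ * emb ω c) := by group
    rw [e, SimpleGraph.Walk.length_cons, mul_v, mul_z]
    set s := (emb ω a)⁻¹ * emb ω b with hs
    set g := (emb ω b)⁻¹ * emb ω c with hg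
    obtain ⟨i1, i2⟩ := ih
    have hl : (0 : ℝ) ≤ p.length := by positivity
    push_cast
    constructor
    · refine (norm_add_le _ _).trans ?_
      have := h1.1
      linarith
    · refine (norm_add_le _ _).trans ?_
      have h2 := norm_add_le s.z g.z
      have h3 := hD.bd.2 s.v g.v
      have h4 : W * ‖s.v‖ * ‖g.v‖ ≤ W * A * (p.length * A) := by
        have := h1.1
        gcongr
      have h5 := h1.2
      have h6 : 0 ≤ W * (A ^ 2 * p.length) := by positivity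
      have h7 : 0 ≤ A ^ 2 * (p.length : ℝ) := by positivity
      have h8 : 0 ≤ W * A ^ 2 := by positivity
      nlinarith

theorem In_dist (hD : Dat ω W) (x y : Vn) :
    In ((emb ω x)⁻¹ * emb ω y) (3 * (1 + W) ^ 3 * (GG ω W).dist x y) := by
  have hW0 := hD.bd.1
  obtain ⟨p, hp⟩ := (conn hD).exists_walk_length_eq_dist x y
  have hA : (0 : ℝ) ≤ 3 * (1 + W) ^ 2 := by positivity
  have h1 := walk_In hD hA p
  rw [hp] at h1
  set d : ℝ := ((GG ω W).dist x y : ℝ) with hd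
  have hd0 : 0 ≤ d := by positivity
  constructor
  · refine h1.1.trans ?_
    have h3 : 0 ≤ d * (3 * (1 + W) ^ 2) * W := by positivity
    nlinarith
  · refine h1.2.trans ?_
    have h3 : 0 ≤ (1 + W) * (3 * (1 + W) ^ 2) ^ 2 * d ^ 2 * W := by positivity
    nlinarith

/-- counting integer points in boxes -/
theorem count (hD : Dat ω W) (g : NG ω) (N : ℕ) :
    {y : Vn | In (g⁻¹ * emb ω y) N}.Finite ∧
    {y : Vn | In (g⁻¹ * emb ω y) N}.ncard ≤ (2 * N + 1) ^ 8 * (2 * N ^ 2 + 1) ^ 2 := by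
  classical
  let F : Vn → Vn := fun y => (fun i => y.1 i - ⌊g.v i⌋,
    fun k => y.2 k - ⌊(g.z + ω g.v (emb ω y).v) k⌋)
  let box : Finset Vn := (Fintype.piFinset fun _ : I4 => Finset.Icc (-(N : ℤ)) N) ×ˢ
    (Fintype.piFinset fun _ : Fin 2 => Finset.Icc (-((N ^ 2 : ℕ) : ℤ)) ((N ^ 2 : ℕ) : ℤ))
  have hmaps : ∀ y ∈ {y : Vn | In (g⁻¹ * emb ω y) N}, F y ∈ (box : Set Vn) := by
    intro y hy
    have key : ∀ (a : ℤ) (b : ℝ) (M : ℕ), |(a : ℝ) - b| ≤ M → a - ⌊b⌋ ∈ Finset.Icc (-(M : ℤ)) M := by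
      intro a b M hab
      rw [abs_le] at hab
      rw [Finset.mem_Icc]
      have h1 := Int.floor_le b
      have h2 := Int.lt_floor_add_one b
      constructor
      · have : (-(M : ℝ)) ≤ (a : ℝ) - ⌊b⌋ := by linarith
        exact_mod_cast this
      · have : (a : ℝ) - ⌊b⌋ < M + 1 := by linarith
        have h3 : a - ⌊b⌋ < (M : ℤ) + 1 := by exact_mod_cast this
        omega
    rw [Finset.mem_coe, Finset.mem_product]
    constructor
    · rw [Fintype.mem_piFinset]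
      intro i
      refine key _ _ _ ?_
      have h1 := (norm_le_pi_norm _ i).trans hy.1
      rw [mul_v, inv_v] at h1
      have h2 : (-g.v + (emb ω y).v) i = (y.1 i : ℝ) - g.v i := by
        show -(g.v i) + (y.1 i : ℝ) = _
        ring
      rw [h2, Real.norm_eq_abs] at h1
      exact h1
    · rw [Fintype.mem_piFinset]
      intro k
      refine key _ _ _ ?_
      have h1 := (norm_le_pi_norm _ k).trans hy.2
      rw [mul_z, inv_z, inv_v, hD.alt] at h1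
      have h2 : (-g.z + 0 + (emb ω y).z + ω (-g.v) (emb ω y).v) k =
          (y.2 k : ℝ) - (g.z + ω g.v (emb ω y).v) k := by
        have e2 : (emb ω y).z k = y.2 k := rfl
        simp only [Pi.add_apply, Pi.neg_apply, map_neg, LinearMap.neg_apply, Pi.zero_apply, e2]
        ring
      rw [h2, Real.norm_eq_abs] at h1
      push_cast
      exact h1
  have hinj : Set.InjOn F {y : Vn | In (g⁻¹ * emb ω y) N} := by
    intro y _ y' _ h
    have h1 := congrArg Prod.fst h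
    have h2 := congrArg Prod.snd h
    have e1 : y.1 = y'.1 := by
      funext i
      have := congrFun h1 i
      simp only [F] at this
      omega
    have e2 : (emb ω y).v = (emb ω y').v := by
      funext i
      show ((y.1 i : ℤ) : ℝ) = y'.1 i
      rw [e1]
    refine Prod.ext e1 ?_
    funext k
    have := congrFun h2 k
    simp only [F] at this
    rw [e2] at this
    omega
  have hfin : (box : Set Vn).Finite := box.finite_toSet
  refine ⟨Set.Finite.of_injOn hmaps hinj hfin, ?_⟩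
  refine (Set.ncard_le_ncard_of_injOn F hmaps hinj hfin).trans ?_
  rw [Set.ncard_coe_finset, Finset.card_product, Fintype.card_piFinset, Fintype.card_piFinset]
  simp only [Int.card_Icc, Finset.prod_const, Finset.card_univ, Fintype.card_prod,
    Fintype.card_fin]
  have e1 : ((N : ℤ) + 1 - -(N : ℤ)).toNat = 2 * N + 1 := by omega
  have e2 : (((N ^ 2 : ℕ) : ℤ) + 1 - -((N ^ 2 : ℕ) : ℤ)).toNat = 2 * N ^ 2 + 1 := by omega
  rw [e1, e2]

theorem locfin (hD : Dat ω W) (x : Vn) : ((GG ω W).neighborSet x).Finite := by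
  refine (count hD (emb ω x) ⌈3 * (1 + W) ^ 2⌉₊).1.subset ?_
  intro y hy
  rw [SimpleGraph.mem_neighborSet] at hy
  exact (Gr_adj hD.alt hy).mono (Nat.le_ceil _)

theorem growth (hD : Dat ω W) : ∃ (v₀ : Vn) (c d : ℕ), ∀ r : ℕ,
    Set.ncard {w | (GG ω W).dist v₀ w ≤ r} ≤ c * (r + 1) ^ d := by
  have hW0 := hD.bd.1
  set b := ⌈3 * (1 + W) ^ 3⌉₊ with hb
  refine ⟨0, (2 * b + 1) ^ 8 * (2 * b ^ 2 + 1) ^ 2, 12, fun r => ?_⟩
  obtain ⟨h1, h2⟩ := count hD (emb ω 0) (b * r)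
  have h3 : {w | (GG ω W).dist 0 w ≤ r} ⊆ {y : Vn | In ((emb ω 0)⁻¹ * emb ω y) ((b * r : ℕ) : ℝ)} := by
    intro w hw
    refine (In_dist hD 0 w).mono ?_
    have e1 : 3 * (1 + W) ^ 3 ≤ (b : ℝ) := Nat.le_ceil _
    have e2 : ((GG ω W).dist 0 w : ℝ) ≤ r := by exact_mod_cast hw
    push_cast
    have e3 : 0 ≤ 3 * (1 + W) ^ 3 := by positivity
    gcongr
  refine (Set.ncard_le_ncard h3 h1).trans (h2.trans ?_)
  have e1 : 2 * (b * r) + 1 ≤ (2 * b + 1) * (r + 1) := by nlinarith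
  have e2 : 2 * (b * r) ^ 2 + 1 ≤ (2 * b ^ 2 + 1) * (r + 1) ^ 2 := by
    nlinarith [Nat.zero_le (b ^ 2 * r), Nat.zero_le (b ^ 2), Nat.zero_le (r ^ 2), Nat.zero_le r]
  calc (2 * (b * r) + 1) ^ 8 * (2 * (b * r) ^ 2 + 1) ^ 2 ≤
      ((2 * b + 1) * (r + 1)) ^ 8 * ((2 * b ^ 2 + 1) * (r + 1) ^ 2) ^ 2 :=
        Nat.mul_le_mul (Nat.pow_le_pow_left e1 8) (Nat.pow_le_pow_left e2 2)
    _ = (2 * b + 1) ^ 8 * (2 * b ^ 2 + 1) ^ 2 * (r + 1) ^ 12 := by ring

/-- dilations -/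
def dl (s : ℝ) (g : NG ω) : NG ω := ⟨s • g.v, s ^ 2 • g.z⟩

theorem dl_mul (s : ℝ) (g h : NG ω) : dl s (g * h) = dl s g * dl s h := by
  ext1
  · simp only [dl, mul_v, smul_add]
  · simp only [dl, mul_z, smul_add, map_smul, LinearMap.smul_apply, smul_smul]
    rw [sq]

theorem dl_inv (s : ℝ) (g : NG ω) : dl s g⁻¹ = (dl s g)⁻¹ := by
  ext1
  · simp only [dl, inv_v, smul_neg]
  · simp only [dl, inv_z, smul_add, smul_neg, map_smul, LinearMap.smul_apply, smul_smul]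
    rw [sq]

theorem dl_dl (s t : ℝ) (g : NG ω) : dl s (dl t g) = dl (s * t) g := by
  ext1
  · simp only [dl, smul_smul]
  · simp only [dl, smul_smul]
    ring_nf

theorem dl_one (g : NG ω) : dl 1 g = g := by
  ext1
  · simp [dl]
  · simp [dl]

theorem dl_zero (g : NG ω) : dl 0 g = 1 := by
  ext1
  · simp [dl, one_v]
  · simp [dl, one_z]

theorem In_dl {g : NG ω} {r s : ℝ} (hs : 0 ≤ s) (h : In g r) : In (dl s g) (s * r) := by
  constructor
  · simp only [dl]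
    rw [norm_smul, Real.norm_eq_abs, abs_of_nonneg hs]
    exact mul_le_mul_of_nonneg_left h.1 hs
  · simp only [dl]
    rw [norm_smul, Real.norm_eq_abs, abs_of_nonneg (by positivity), mul_pow]
    exact mul_le_mul_of_nonneg_left h.2 (by positivity)

theorem asdim (hD : Dat ω W) : ∃ n : ℕ, ∀ R : ℕ, ∃ (ι : Type) (U : ι → Set Vn) (D : ℕ),
    (∀ i, ∀ x ∈ U i, ∀ y ∈ U i, (GG ω W).dist x y ≤ D) ∧
    (∀ x, ∃ i, x ∈ U i) ∧
    ∀ x, {i | ∃ y ∈ U i, (GG ω W).dist x y ≤ R}.Finite ∧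
      Set.ncard {i | ∃ y ∈ U i, (GG ω W).dist x y ≤ R} ≤ n + 1 := by
  have hW0 := hD.bd.1
  set B := 3 * (1 + W) ^ 3 with hB
  have hB0 : 0 ≤ B := by positivity
  set N := ⌈(1 + W) * (B + 1)⌉₊ with hN
  refine ⟨(2 * N + 1) ^ 8 * (2 * N ^ 2 + 1) ^ 2, fun R => ?_⟩
  set ρ : ℝ := (R : ℝ) + 1 with hρ
  have hρ0 : 0 < ρ := by positivity
  have hρ' : 0 ≤ 1 / ρ := by positivity
  refine ⟨Vn, fun w => {x | rd (dl (1 / ρ) (emb ω x)) = w}, 9 * ⌈ρ * ((1 + W) * (1 + 1))⌉₊,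
    ?_, fun x => ⟨_, rfl⟩, ?_⟩
  · intro w x hx y hy
    have hx' : rd (dl (1 / ρ) (emb ω x)) = w := hx
    have hy' : rd (dl (1 / ρ) (emb ω y)) = w := hy
    have h1 := rd_close hD.alt (dl (1 / ρ) (emb ω x))
    have h2 := (rd_close hD.alt (dl (1 / ρ) (emb ω y))).inv hD.alt
    rw [hx'] at h1
    rw [hy'] at h2
    have h3 := In_dl hρ0.le (h1.mul hD.bd h2)
    have e : dl ρ ((dl (1 / ρ) (emb ω x))⁻¹ * emb ω w * ((dl (1 / ρ) (emb ω y))⁻¹ * emb ω w)⁻¹) =
        (emb ω x)⁻¹ * emb ω y := by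
      have e1 : (dl (1 / ρ) (emb ω x))⁻¹ * emb ω w * ((dl (1 / ρ) (emb ω y))⁻¹ * emb ω w)⁻¹ =
          (dl (1 / ρ) (emb ω x))⁻¹ * dl (1 / ρ) (emb ω y) := by group
      rw [e1, dl_mul, dl_inv, dl_dl, dl_dl, mul_one_div_cancel hρ0.ne', dl_one, dl_one]
    rw [e] at h3
    exact dist_le' hD h3
  · intro x
    obtain ⟨h1, h2⟩ := count hD (dl (1 / ρ) (emb ω x)) N
    have hsub : {i | ∃ y ∈ {x | rd (dl (1 / ρ) (emb ω x)) = i}, (GG ω W).dist x y ≤ R} ⊆
        {y : Vn | In ((dl (1 / ρ) (emb ω x))⁻¹ * emb ω y) N} := by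
      rintro w ⟨y, hy, hxy⟩
      have hy' : rd (dl (1 / ρ) (emb ω y)) = w := hy
      have h3 := In_dl hρ' (In_dist hD x y)
      have h4 := rd_close hD.alt (dl (1 / ρ) (emb ω y))
      rw [hy'] at h4
      have h5 : In (dl (1 / ρ) ((emb ω x)⁻¹ * emb ω y)) B := by
        refine h3.mono ?_
        have e1 : ((GG ω W).dist x y : ℝ) ≤ R := by exact_mod_cast hxy
        rw [← hB]
        calc 1 / ρ * (B * (GG ω W).dist x y) ≤ 1 / ρ * (B * ρ) := by
              gcongr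
              rw [hρ]; linarith
          _ = B := by field_simp
      have h6 := h5.mul hD.bd h4
      have e : dl (1 / ρ) ((emb ω x)⁻¹ * emb ω y) * ((dl (1 / ρ) (emb ω y))⁻¹ * emb ω w) =
          (dl (1 / ρ) (emb ω x))⁻¹ * emb ω w := by
        rw [dl_mul, dl_inv]
        group
      rw [e] at h6
      exact h6.mono (Nat.le_ceil _)
    exact ⟨h1.subset hsub, (Set.ncard_le_ncard hsub h1).trans (h2.trans (Nat.le_succ _))⟩

theorem coarse_trans (hD : Dat ω W) : ∃ K C : ℝ, 0 < K ∧ ∀ x y : Vn, ∃ f : Vn → Vn,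
    (∀ a b : Vn, ((GG ω W).dist a b : ℝ) / K - C ≤ ((GG ω W).dist (f a) (f b) : ℝ) ∧
      ((GG ω W).dist (f a) (f b) : ℝ) ≤ K * ((GG ω W).dist a b : ℝ) + C) ∧
    (∀ z : Vn, ∃ a : Vn, ((GG ω W).dist (f a) z : ℝ) ≤ C) ∧
    ((GG ω W).dist (f x) y : ℝ) ≤ C := by
  have hW0 := hD.bd.1
  set B := 3 * (1 + W) ^ 3 with hB
  have hB0 : 1 ≤ B := by
    have : 1 ≤ (1 + W) ^ 3 := one_le_pow₀ (by linarith)
    linarith
  set E := 9 * ((1 + W) ^ 2 + (1 + W) + 2) with hE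
  have hE0 : 9 ≤ E := by
    have : 0 ≤ (1 + W) ^ 2 := by positivity
    linarith
  have hWsq : 1 ≤ (1 + W) ^ 2 := one_le_pow₀ (by linarith)
  set K := 9 * ((1 + W) ^ 2 * B) with hK
  have hK1 : 1 ≤ K := by nlinarith
  refine ⟨K, E, by linarith, fun x y => ?_⟩
  set g := emb ω y * (emb ω x)⁻¹ with hg
  refine ⟨fun a => rd (g * emb ω a), ?_, ?_, ?_⟩
  · intro a b
    have hd0 : (0 : ℝ) ≤ ((GG ω W).dist a b : ℝ) := by positivity
    have hd0' : (0 : ℝ) ≤ ((GG ω W).dist (rd (g * emb ω a)) (rd (g * emb ω b)) : ℝ) := by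
      positivity
    constructor
    · have h1 := rd_close hD.alt (g * emb ω a)
      have h2 := (rd_close hD.alt (g * emb ω b)).inv hD.alt
      have h3 := In_dist hD (rd (g * emb ω a)) (rd (g * emb ω b))
      have h4 := (h1.mul hD.bd h3).mul hD.bd h2
      have e : (g * emb ω a)⁻¹ * emb ω (rd (g * emb ω a)) *
          ((emb ω (rd (g * emb ω a)))⁻¹ * emb ω (rd (g * emb ω b))) *
          ((g * emb ω b)⁻¹ * emb ω (rd (g * emb ω b)))⁻¹ = (emb ω a)⁻¹ * emb ω b := by group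
      rw [e] at h4
      have h5 := dist_le_real hD h4
      rw [rd_emb hD.alt, rd_emb hD.alt, ← hB] at h5
      set d' := ((GG ω W).dist (rd (g * emb ω a)) (rd (g * emb ω b)) : ℝ) with hd'
      have h6 : ((GG ω W).dist a b : ℝ) ≤ K * d' + E := by
        rw [hK, hE]
        nlinarith
      have h7 : ((GG ω W).dist a b : ℝ) / K ≤ d' + E / K := by
        rw [div_le_iff₀ (by linarith)]
        have : (d' + E / K) * K = K * d' + E := by field_simp
        rw [this]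
        exact h6
      have h8 : E / K ≤ E := div_le_self (by linarith) hK1
      linarith
    · have h1 : In ((g * emb ω a)⁻¹ * (g * emb ω b)) (B * (GG ω W).dist a b) := by
        have := In_dist hD a b
        have e : (g * emb ω a)⁻¹ * (g * emb ω b) = (emb ω a)⁻¹ * emb ω b := by group
        rw [e]
        exact this
      have h2 := dist_le_real hD h1
      refine h2.trans ?_
      have h3 : 9 * (B * ((GG ω W).dist a b : ℝ)) ≤ K * (GG ω W).dist a b := by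
        rw [hK]
        have : 0 ≤ B * ((GG ω W).dist a b : ℝ) := by positivity
        nlinarith
      linarith
  · intro z
    refine ⟨rd (g⁻¹ * emb ω z), ?_⟩
    have h1 := (rd_close hD.alt (g⁻¹ * emb ω z)).inv hD.alt
    have e : ((g⁻¹ * emb ω z)⁻¹ * emb ω (rd (g⁻¹ * emb ω z)))⁻¹ =
        (g * emb ω (rd (g⁻¹ * emb ω z)))⁻¹ * emb ω z := by group
    rw [e] at h1
    have h2 := dist_le hD h1
    rw [rd_emb hD.alt] at h2
    simp only [Nat.ceil_one, mul_one] at h2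
    have h3 : ((GG ω W).dist (rd (g * emb ω (rd (g⁻¹ * emb ω z)))) z : ℝ) ≤ ((9 : ℕ) : ℝ) := by
      exact_mod_cast h2
    push_cast at h3
    linarith
  · have e : g * emb ω x = emb ω y := by
      rw [hg]
      group
    show ((GG ω W).dist (rd (g * emb ω x)) y : ℝ) ≤ E
    rw [e, rd_emb hD.alt, SimpleGraph.dist_self]
    push_cast
    linarith

end H8K1
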