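import Pool.Agent.H8K1.CT.Mean

set_option autoImplicit false
namespace H8K1
open Gardner Filter Topology

/-- index set of the first layer -/
abbrev I4 := Fin 4 × Fin 2
/-- first layer -/
abbrev V := I4 → ℝ
/-- centre -/
abbrev Z := Fin 2 → ℝ
/-- bilinear maps -/
abbrev Om := V →ₗ[ℝ] V →ₗ[ℝ] Z

/-- the two-step nilpotent group of a bilinear map -/
@[ext] structure NG (ω : Om) where
  /-- first layer part -/
  v : V
  /-- central part -/
  z : Z

variable {ω : Om}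

namespace NG

instance : Mul (NG ω) := ⟨fun g h => ⟨g.v + h.v, g.z + h.z + ω g.v h.v⟩⟩
instance : One (NG ω) := ⟨⟨0, 0⟩⟩
instance : Inv (NG ω) := ⟨fun g => ⟨-g.v, -g.z + ω g.v g.v⟩⟩

theorem mul_v (g h : NG ω) : (g * h).v = g.v + h.v := rfl
theorem mul_z (g h : NG ω) : (g * h).z = g.z + h.z + ω g.v h.v := rfl
theorem one_v : (1 : NG ω).v = 0 := rfl
theorem one_z : (1 : NG ω).z = 0 := rfl
theorem inv_v (g : NG ω) : (g⁻¹).v = -g.v := rfl
theorem inv_z (g : NG ω) : (g⁻¹).z = -g.z + ω g.v g.v := rfl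

instance : Group (NG ω) := Group.ofLeftAxioms
  (by
    intro a b c
    ext1
    · simp only [mul_v]; abel
    · simp only [mul_z, mul_v, map_add, LinearMap.add_apply]; abel)
  (by
    intro a
    ext1
    · simp [mul_v, one_v]
    · simp [mul_z, one_z, one_v])
  (by
    intro a
    ext1
    · simp [mul_v, inv_v, one_v]
    · simp [mul_z, inv_z, one_z, inv_v])

end NG
open NG

/-- horizontal element -/
def hv (ω : Om) (a : V) : NG ω := ⟨a, 0⟩
/-- central element -/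
def cz (ω : Om) (c : Z) : NG ω := ⟨0, c⟩

@[simp] theorem hv_v (a : V) : (hv ω a).v = a := rfl
@[simp] theorem hv_z (a : V) : (hv ω a).z = 0 := rfl
@[simp] theorem cz_v (c : Z) : (cz ω c).v = 0 := rfl
@[simp] theorem cz_z (c : Z) : (cz ω c).z = c := rfl

theorem hv_mul_hv (a b : V) : hv ω a * hv ω b = hv ω (a + b) * cz ω (ω a b) := by
  ext1
  · simp [mul_v]
  · simp [mul_z]

theorem cz_mul_cz (c d : Z) : cz ω c * cz ω d = cz ω (c + d) := by
  ext1
  · simp [mul_v]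
  · simp [mul_z]

theorem cz_comm (c : Z) (g : NG ω) : cz ω c * g = g * cz ω c := by
  ext1
  · simp [mul_v]
  · simp [mul_z, add_comm]

theorem eq_hv_mul_cz (g : NG ω) : g = hv ω g.v * cz ω g.z := by
  ext1
  · simp [mul_v]
  · simp [mul_z]

theorem hv_zero : hv ω 0 = 1 := rfl
theorem cz_zero : cz ω 0 = 1 := rfl

/-- alternating -/
def Alt (ω : Om) : Prop := ∀ v, ω v v = 0

theorem Alt.swap (h : Alt ω) (a b : V) : ω b a = - ω a b := by
  have h1 := h (a + b)
  simp only [map_add, LinearMap.add_apply, h a, h b, zero_add, add_zero] at h1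
  exact eq_neg_of_add_eq_zero_right (by rw [add_comm]; exact h1)

/-- homogeneous boxes -/
def In (g : NG ω) (r : ℝ) : Prop := ‖g.v‖ ≤ r ∧ ‖g.z‖ ≤ r ^ 2

theorem In.mono {g : NG ω} {r s : ℝ} (h : In g r) (hrs : r ≤ s) : In g s := by
  have h0 : 0 ≤ r := (norm_nonneg _).trans h.1
  exact ⟨h.1.trans hrs, h.2.trans (pow_le_pow_left₀ h0 hrs 2)⟩

theorem In.nonneg {g : NG ω} {r : ℝ} (h : In g r) : 0 ≤ r := (norm_nonneg _).trans h.1

theorem In.inv {g : NG ω} {r : ℝ} (hω : Alt ω) (h : In g r) : In g⁻¹ r := by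
  refine ⟨?_, ?_⟩
  · rw [inv_v, norm_neg]; exact h.1
  · rw [inv_z, hω, add_zero, norm_neg]; exact h.2

/-- a bound of the bilinear map -/
def BdW (ω : Om) (W : ℝ) : Prop := 0 ≤ W ∧ ∀ a b, ‖ω a b‖ ≤ W * ‖a‖ * ‖b‖

theorem bilin_expand (ω : Om) (p q : V) (k : Fin 2) :
    ω p q k = ∑ i, ∑ j, ω (Pi.single i 1) (Pi.single j 1) k * (p i * q j) := by
  have hp : p = ∑ i, p i • (Pi.single i 1 : V) := by
    funext l
    simp [Finset.sum_apply, Pi.single_apply]
  have hq : q = ∑ i, q i • (Pi.single i 1 : V) := by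
    funext l
    simp [Finset.sum_apply, Pi.single_apply]
  conv_lhs => rw [hp, hq]
  simp only [map_sum, map_smul, LinearMap.sum_apply, LinearMap.smul_apply, Finset.sum_apply,
    Pi.smul_apply, smul_eq_mul]
  simp only [Finset.mul_sum]
  rw [Finset.sum_comm]
  refine Finset.sum_congr rfl fun i _ => ?_
  refine Finset.sum_congr rfl fun j _ => ?_
  ring

theorem exists_BdW (ω : Om) : ∃ W, BdW ω W := by
  refine ⟨∑ k : Fin 2, ∑ i : I4, ∑ j : I4, |ω (Pi.single i 1) (Pi.single j 1) k|,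
    by positivity, ?_⟩
  intro a b
  rw [pi_norm_le_iff_of_nonneg (by positivity)]
  intro k
  rw [bilin_expand, Real.norm_eq_abs]
  have h1 : |∑ i, ∑ j, ω (Pi.single i 1) (Pi.single j 1) k * (a i * b j)| ≤
      ∑ i, ∑ j, |ω (Pi.single i 1) (Pi.single j 1) k| * (‖a‖ * ‖b‖) := by
    refine (Finset.abs_sum_le_sum_abs _ _).trans (Finset.sum_le_sum fun i _ => ?_)
    refine (Finset.abs_sum_le_sum_abs _ _).trans (Finset.sum_le_sum fun j _ => ?_)
    rw [abs_mul, abs_mul]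
    have h2 : |a i| ≤ ‖a‖ := norm_le_pi_norm a i
    have h3 : |b j| ≤ ‖b‖ := norm_le_pi_norm b j
    gcongr
  refine h1.trans ?_
  simp only [← Finset.sum_mul]
  rw [mul_assoc]
  refine mul_le_mul_of_nonneg_right ?_ (by positivity)
  exact Finset.single_le_sum
    (f := fun k : Fin 2 => ∑ i : I4, ∑ j : I4, |ω (Pi.single i 1) (Pi.single j 1) k|)
    (fun k _ => by positivity) (Finset.mem_univ k)

theorem In.mul {g h : NG ω} {r s W : ℝ} (hW : BdW ω W) (hg : In g r) (hh : In h s) :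
    In (g * h) ((1 + W) * (r + s)) := by
  have hr := hg.nonneg
  have hs := hh.nonneg
  obtain ⟨hW0, hW⟩ := hW
  refine ⟨?_, ?_⟩
  · rw [mul_v]
    have := (norm_add_le g.v h.v).trans (add_le_add hg.1 hh.1)
    nlinarith
  · rw [mul_z]
    have h1 := (norm_add_le (g.z + h.z) (ω g.v h.v)).trans
      (add_le_add (norm_add_le _ _) (hW g.v h.v))
    have h2 : W * ‖g.v‖ * ‖h.v‖ ≤ W * r * s := by
      have := hg.1
      have := hh.1
      gcongr
    have h3 := hg.2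
    have h4 := hh.2
    nlinarith [mul_nonneg hW0 (mul_nonneg hr hs), mul_nonneg hr hs, mul_nonneg hW0 hr,
      mul_nonneg hW0 hs, sq_nonneg (W * (r + s)), mul_nonneg hW0 (sq_nonneg (r + s))]

theorem In_hv {a : V} {r : ℝ} (h : ‖a‖ ≤ r) : In (hv ω a) r :=
  ⟨h, by simpa using sq_nonneg r⟩

theorem In_cz {c : Z} {r : ℝ} (h0 : 0 ≤ r) (h : ‖c‖ ≤ r ^ 2) : In (cz ω c) r :=
  ⟨by simpa using h0, h⟩

/-- The group has a right invariant mean. -/
theorem exists_IM (ω : Om) : ∃ m : (NG ω → ℝ) → ℝ, IM m := by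
  obtain ⟨mV, a1, a2, a3, a4, a5⟩ := exists_mean V
  obtain ⟨mZ, b1, b2, b3, b4, b5⟩ := exists_mean Z
  have hb : ∀ f : NG ω → ℝ, Bdd f → Bdd (fun v : V => mZ (fun z => f ⟨v, z⟩)) := by
    rintro f ⟨C, hC⟩
    exact ⟨C, fun v => b4 _ _ fun z => hC _⟩
  have hc : ∀ (f : NG ω → ℝ) v, Bdd f → Bdd (fun z : Z => f ⟨v, z⟩) := by
    rintro f v ⟨C, hC⟩
    exact ⟨C, fun z => hC _⟩
  refine ⟨fun f => mV (fun v => mZ (fun z => f ⟨v, z⟩)), ⟨⟨?_, ?_, ?_, ?_⟩, ?_⟩⟩
  · intro f g hf hg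
    have : (fun v => mZ (fun z => (f + g) ⟨v, z⟩)) =
        (fun v => mZ (fun z => f ⟨v, z⟩)) + (fun v => mZ (fun z => g ⟨v, z⟩)) := by
      funext v
      exact b1 _ _ (hc f v hf) (hc g v hg)
    show mV (fun v => mZ (fun z => (f + g) ⟨v, z⟩)) = _
    rw [this, a1 _ _ (hb f hf) (hb g hg)]
  · intro f hf h0
    exact a2 _ (hb f hf) fun v => b2 _ (hc f v hf) fun z => h0 _
  · show mV (fun _ => mZ (fun _ => 1)) = 1
    rw [b3, a3]
  · intro f C hC
    exact a4 _ _ fun v => b4 _ _ fun z => hC _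
  · intro f g hf
    have h1 : ∀ v : V, mZ (fun z => f (⟨v, z⟩ * g)) = mZ (fun z => f ⟨g.v + v, z⟩) := by
      intro v
      rw [← b5 (fun z => f ⟨g.v + v, z⟩) (g.z + ω v g.v) (hc f _ hf)]
      congr 1
      funext z
      congr 1
      ext1
      · show v + g.v = g.v + v
        abel
      · show z + g.z + ω v g.v = g.z + ω v g.v + z
        abel
    simp only [h1]
    exact a5 (fun v => mZ (fun z => f ⟨v, z⟩)) g.v (hb f hf)

end H8K1
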