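import Pool.Agent.Helper183.Gar.Mean

set_option autoImplicit false
namespace H8K1
open Gardner Filter Topology

variable {Γ : Type*}

/-! ### bounded functions -/

theorem Bdd.add {f g : Γ → ℝ} (hf : Bdd f) (hg : Bdd g) : Bdd (fun x => f x + g x) := by
  obtain ⟨C, hC⟩ := hf
  obtain ⟨D, hD⟩ := hg
  exact ⟨C + D, fun x => (abs_add_le _ _).trans (add_le_add (hC x) (hD x))⟩

theorem Bdd.neg {f : Γ → ℝ} (hf : Bdd f) : Bdd (fun x => - f x) := by
  obtain ⟨C, hC⟩ := hf
  exact ⟨C, fun x => by rw [abs_neg]; exact hC x⟩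

theorem Bdd.sub {f g : Γ → ℝ} (hf : Bdd f) (hg : Bdd g) : Bdd (fun x => f x - g x) := by
  simpa [sub_eq_add_neg] using Bdd.add hf (Bdd.neg hg)

theorem Bdd.mul {f g : Γ → ℝ} (hf : Bdd f) (hg : Bdd g) : Bdd (fun x => f x * g x) := by
  obtain ⟨C, hC⟩ := hf
  obtain ⟨D, hD⟩ := hg
  refine ⟨C * D, fun x => ?_⟩
  rw [abs_mul]
  exact mul_le_mul (hC x) (hD x) (abs_nonneg _) ((abs_nonneg _).trans (hC x))

theorem Bdd.const (c : ℝ) : Bdd (fun _ : Γ => c) := ⟨|c|, fun _ => le_rfl⟩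

theorem Bdd.smul {f : Γ → ℝ} (c : ℝ) (hf : Bdd f) : Bdd (fun x => c * f x) :=
  Bdd.mul (Bdd.const c) hf

theorem Bdd.pow {f : Γ → ℝ} (hf : Bdd f) (n : ℕ) : Bdd (fun x => f x ^ n) := by
  induction n with
  | zero => simpa using Bdd.const (Γ := Γ) 1
  | succ n ih => simpa [pow_succ] using Bdd.mul ih hf

theorem Bdd.div {f : Γ → ℝ} (hf : Bdd f) (c : ℝ) : Bdd (fun x => f x / c) := by
  simpa [div_eq_mul_inv] using Bdd.mul hf (Bdd.const c⁻¹)

theorem Bdd.abs {f : Γ → ℝ} (hf : Bdd f) : Bdd (fun x => |f x|) := by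
  obtain ⟨C, hC⟩ := hf
  exact ⟨C, fun x => by rw [abs_abs]; exact hC x⟩

theorem Bdd.comp {f : Γ → ℝ} (hf : Bdd f) {Δ : Type*} (u : Δ → Γ) : Bdd (fun x => f (u x)) := by
  obtain ⟨C, hC⟩ := hf
  exact ⟨C, fun x => hC _⟩

theorem Bdd.sum {ι : Type*} {f : ι → Γ → ℝ} (s : Finset ι) (hf : ∀ i, Bdd (f i)) :
    Bdd (fun x => ∑ i ∈ s, f i x) := by
  classical
  induction s using Finset.induction_on with
  | empty => simpa using Bdd.const (Γ := Γ) 0
  | insert a s ha ih =>
    have : (fun x => ∑ i ∈ insert a s, f i x) = fun x => f a x + ∑ i ∈ s, f i x := by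
      funext x; rw [Finset.sum_insert ha]
    rw [this]
    exact Bdd.add (hf a) ih

/-- additive real functions with linear growth are homogeneous -/
theorem homog_of_bound {E : Type*} [NormedAddCommGroup E] [NormedSpace ℝ E] (g : E → ℝ)
    (hadd : ∀ a b, g (a + b) = g a + g b) (K C : ℝ) (hb : ∀ v, |g v| ≤ K * ‖v‖ + C) :
    ∀ (c : ℝ) (v : E), g (c • v) = c * g v := by
  have h0 : g 0 = 0 := by
    have := hadd 0 0
    simp at this
    exact this
  let G : E →+ ℝ := ⟨⟨g, h0⟩, hadd⟩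
  have hG : ∀ v, G v = g v := fun v => rfl
  have hn : ∀ (n : ℕ) v, g ((n : ℝ) • v) = n * g v := by
    intro n v
    have := map_nsmul G n v
    rw [hG, hG] at this
    rw [Nat.cast_smul_eq_nsmul ℝ n v, this]
    simp
  have hb' : ∀ v, |g v| ≤ K * ‖v‖ := by
    intro v
    have key : ∀ n : ℕ, |g v| * (n + 1) ≤ K * ‖v‖ * (n + 1) + C := by
      intro n
      have h1 := hb (((n + 1 : ℕ) : ℝ) • v)
      rw [hn, abs_mul, norm_smul] at h1
      rw [Nat.abs_cast] at h1
      rw [Real.norm_natCast] at h1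
      push_cast at h1
      linarith
    by_contra hcon
    push Not at hcon
    set d := |g v| - K * ‖v‖ with hd
    have hd0 : 0 < d := by linarith
    obtain ⟨n, hn'⟩ := exists_nat_gt (C / d)
    have h2 := key n
    have h3 : C < n * d := by rwa [div_lt_iff₀ hd0] at hn'
    have : d * (n + 1) ≤ C := by rw [hd]; linarith
    nlinarith
  have hcont : Continuous G := by
    refine AddMonoidHomClass.continuous_of_bound G K ?_
    intro v
    rw [hG, Real.norm_eq_abs]
    exact hb' v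
  intro c v
  have := map_real_smul G hcont c v
  rw [hG, hG] at this
  rw [this, smul_eq_mul]

theorem Bdd.cst {f : Γ → ℝ} (hf : Bdd f) : ∃ C, 0 ≤ C ∧ ∀ x, |f x| ≤ C := by
  obtain ⟨C, hC⟩ := hf
  exact ⟨max C 0, le_max_right _ _, fun x => (hC x).trans (le_max_left _ _)⟩

section mn
variable {m : (Γ → ℝ) → ℝ} (hm : IsMn m)
include hm

theorem IsMn.add {f g : Γ → ℝ} (hf : Bdd f) (hg : Bdd g) :
    m (fun x => f x + g x) = m f + m g := hm.1 f g hf hg

theorem IsMn.smul {f : Γ → ℝ} (c : ℝ) (hf : Bdd f) : m (fun x => c * f x) = c * m f := by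
  obtain ⟨C, hC0, hC⟩ := Bdd.cst hf
  have h := homog_of_bound (E := ℝ) (fun c : ℝ => m (fun x => c * f x)) ?_ C 0 ?_ c 1
  · simpa using h
  · intro a b
    have := IsMn.add hm (Bdd.smul a hf) (Bdd.smul b hf)
    simp only [add_mul]
    exact this
  · intro v
    rw [add_zero]
    refine hm.2.2.2 _ _ fun x => ?_
    rw [abs_mul, Real.norm_eq_abs, mul_comm]
    exact mul_le_mul_of_nonneg_right (hC x) (abs_nonneg _)

theorem IsMn.const (c : ℝ) : m (fun _ => c) = c := by
  have := IsMn.smul hm c (Bdd.const (Γ := Γ) 1)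
  simp only [mul_one] at this
  rw [this, hm.2.2.1, mul_one]

theorem IsMn.neg {f : Γ → ℝ} (hf : Bdd f) : m (fun x => - f x) = - m f := by
  have := IsMn.smul hm (-1) hf
  simpa using this

theorem IsMn.sub {f g : Γ → ℝ} (hf : Bdd f) (hg : Bdd g) :
    m (fun x => f x - g x) = m f - m g := by
  have := IsMn.add hm hf (Bdd.neg hg)
  rw [IsMn.neg hm hg] at this
  simpa [sub_eq_add_neg] using this

theorem IsMn.mono {f g : Γ → ℝ} (hf : Bdd f) (hg : Bdd g) (h : ∀ x, f x ≤ g x) : m f ≤ m g := by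
  have h1 := hm.2.1 _ (Bdd.sub hg hf) (fun x => sub_nonneg.2 (h x))
  rw [IsMn.sub hm hg hf] at h1
  linarith

theorem IsMn.div {f : Γ → ℝ} (hf : Bdd f) (c : ℝ) : m (fun x => f x / c) = m f / c := by
  have := IsMn.smul hm c⁻¹ hf
  simpa [div_eq_mul_inv, mul_comm] using this

theorem IsMn.sum {ι : Type*} {f : ι → Γ → ℝ} (s : Finset ι) (hf : ∀ i, Bdd (f i)) :
    m (fun x => ∑ i ∈ s, f i x) = ∑ i ∈ s, m (f i) := by
  classical
  induction s using Finset.induction_on with
  | empty => simpa using IsMn.const hm 0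
  | insert a s ha ih =>
    have : (fun x => ∑ i ∈ insert a s, f i x) = fun x => f a x + ∑ i ∈ s, f i x := by
      funext x; rw [Finset.sum_insert ha]
    rw [this, IsMn.add hm (hf a) (Bdd.sum s hf), ih, Finset.sum_insert ha]

theorem IsMn.abs_le {f : Γ → ℝ} (hf : Bdd f) : |m f| ≤ m (fun x => |f x|) := by
  rw [_root_.abs_le]
  constructor
  · rw [neg_le, ← IsMn.neg hm hf]
    exact IsMn.mono hm (Bdd.neg hf) (Bdd.abs hf) fun x => neg_le_abs _
  · exact IsMn.mono hm hf (Bdd.abs hf) fun x => le_abs_self _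

/-- Cauchy-Schwarz -/
theorem IsMn.cs {f g : Γ → ℝ} (hf : Bdd f) (hg : Bdd g) :
    (m (fun x => f x * g x)) ^ 2 ≤ m (fun x => f x ^ 2) * m (fun x => g x ^ 2) := by
  set A := m (fun x => f x ^ 2) with hA
  set B := m (fun x => f x * g x) with hB
  set D := m (fun x => g x ^ 2) with hD
  have key : ∀ t : ℝ, 0 ≤ A * (t * t) + 2 * B * t + D := by
    intro t
    have h1 : 0 ≤ m (fun x => (t * f x + g x) ^ 2) :=
      hm.2.1 _ (Bdd.pow (Bdd.add (Bdd.smul t hf) hg) 2) fun x => sq_nonneg _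
    have h2 : (fun x => (t * f x + g x) ^ 2) =
        fun x => (t * t) * (f x ^ 2) + ((2 * t) * (f x * g x) + g x ^ 2) := by
      funext x; ring
    rw [h2, IsMn.add hm (Bdd.smul _ (Bdd.pow hf 2))
      (Bdd.add (Bdd.smul _ (Bdd.mul hf hg)) (Bdd.pow hg 2)),
      IsMn.add hm (Bdd.smul _ (Bdd.mul hf hg)) (Bdd.pow hg 2),
      IsMn.smul hm _ (Bdd.pow hf 2), IsMn.smul hm _ (Bdd.mul hf hg)] at h1
    linarith
  have := discrim_le_zero (a := A) (b := 2 * B) (c := D) (fun t => by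
    have := key t; linarith)
  rw [discrim] at this
  nlinarith

theorem IsMn.sq_nonneg {f : Γ → ℝ} (hf : Bdd f) : 0 ≤ m (fun x => f x ^ 2) :=
  hm.2.1 _ (Bdd.pow hf 2) fun x => _root_.sq_nonneg _

theorem IsMn.sq_le {f : Γ → ℝ} (hf : Bdd f) : (m f) ^ 2 ≤ m (fun x => f x ^ 2) := by
  have := IsMn.cs hm hf (Bdd.const (Γ := Γ) 1)
  simp only [mul_one, one_pow] at this
  rw [hm.2.2.1, mul_one] at this
  exact this

end mn

/-- right invariant mean on a group -/
structure IM [Group Γ] (m : (Γ → ℝ) → ℝ) : Prop where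
  mn : IsMn m
  inv : ∀ (f : Γ → ℝ) (a : Γ), Bdd f → m (fun x => f (x * a)) = m f

/-- The maximality principle. -/
theorem exists_max_mean [Group Γ] (hex : ∃ m : (Γ → ℝ) → ℝ, IM m) {J : Type*} [Fintype J]
    (h : J → Γ → ℝ) (hh : ∀ j, Bdd (h j)) :
    ∃ m : (Γ → ℝ) → ℝ, IM m ∧
      ∀ s : ℕ → Γ → ℝ, (∃ C, ∀ n x, |s n x| ≤ C) → (∀ n, m (s n) = 0) →
        (∀ w, ∀ ε > 0, ∀ᶠ n in atTop, ∀ x, |s n (x * w) - s n x| ≤ ε) →
        ∀ g, Bdd g → (∀ m', IM m' → (∀ j, m' (h j) = m (h j)) → m' g = m g) →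
          Tendsto (fun n => m (fun x => g x * s n x)) atTop (𝓝 0) := by
  classical
  -- a maximiser
  let Φ : ((Γ → ℝ) → ℝ) → ℝ := fun m => ∑ j, (m (h j)) ^ 2
  choose B hB0 hB using fun j => Bdd.cst (hh j)
  have hΦb : ∀ m : (Γ → ℝ) → ℝ, IM m → Φ m ≤ ∑ j, (B j) ^ 2 := by
    intro m hm
    refine Finset.sum_le_sum fun j _ => ?_
    have := hm.mn.2.2.2 (h j) (B j) (hB j)
    rw [← sq_abs]
    exact pow_le_pow_left₀ (abs_nonneg _) this 2
  let T : Set ℝ := {r | ∃ m : (Γ → ℝ) → ℝ, IM m ∧ Φ m = r}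
  have hTne : T.Nonempty := by
    obtain ⟨m, hm⟩ := hex
    exact ⟨Φ m, m, hm, rfl⟩
  have hTb : BddAbove T := ⟨∑ j, (B j) ^ 2, by rintro r ⟨m, hm, rfl⟩; exact hΦb m hm⟩
  have hseq : ∀ n : ℕ, ∃ m : (Γ → ℝ) → ℝ, IM m ∧ sSup T - 1 / ((n : ℝ) + 1) < Φ m := by
    intro n
    have : sSup T - 1 / ((n : ℝ) + 1) < sSup T := by
      have : (0 : ℝ) < 1 / ((n : ℝ) + 1) := by positivity
      linarith
    obtain ⟨r, ⟨m, hm, rfl⟩, hr⟩ := exists_lt_of_lt_csSup hTne this
    exact ⟨m, hm, hr⟩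
  choose mm hmm hmmΦ using hseq
  obtain ⟨M, hM, hlim⟩ := exists_ulim (Filter.hyperfilter ℕ) mm (fun n => (hmm n).mn)
  have hMinv : IM M := by
    refine ⟨hM, ?_⟩
    intro f a hf
    have h1 := hlim _ (Bdd.comp hf (fun x => x * a))
    have h2 := hlim f hf
    have h3 : (fun i => mm i (fun x => f (x * a))) = fun i => mm i f :=
      funext fun i => (hmm i).inv f a hf
    rw [h3] at h1
    exact tendsto_nhds_unique h1 h2
  have hMΦ : ∀ m : (Γ → ℝ) → ℝ, IM m → Φ m ≤ Φ M := by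
    intro m hm
    have h1 : Φ m ≤ sSup T := le_csSup hTb ⟨m, hm, rfl⟩
    refine h1.trans ?_
    have h2 : Tendsto (fun n => Φ (mm n)) (Filter.hyperfilter ℕ : Filter ℕ) (𝓝 (Φ M)) := by
      refine tendsto_finsetSum _ fun j _ => ?_
      exact (hlim (h j) (hh j)).pow 2
    have h3 : Tendsto (fun n : ℕ => sSup T - 1 / ((n : ℝ) + 1))
        (Filter.hyperfilter ℕ : Filter ℕ) (𝓝 (sSup T - 0)) := by
      refine Tendsto.mono_left ?_ (Nat.hyperfilter_le_atTop)
      exact tendsto_const_nhds.sub tendsto_one_div_add_atTop_nhds_zero_nat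
    rw [sub_zero] at h3
    exact le_of_tendsto_of_tendsto h3 h2 (Eventually.of_forall fun n => (hmmΦ n).le)
  refine ⟨M, hMinv, ?_⟩
  intro s hsb hs0 hsinv g hg hdet
  obtain ⟨C, hC⟩ := hsb
  have hsB : ∀ n, Bdd (s n) := fun n => ⟨C, hC n⟩
  have hC0 : 0 ≤ C := (abs_nonneg _).trans (hC 0 1)
  rw [tendsto_iff_ultrafilter]
  intro U hU
  -- perturbed means
  let c : ℝ := 1 / (C + 1)
  have hc : 0 < c := by positivity
  have hcs : ∀ n x, |c * s n x| ≤ 1 := by
    intro n x
    rw [abs_mul, abs_of_pos hc]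
    calc c * |s n x| ≤ c * C := mul_le_mul_of_nonneg_left (hC n x) hc.le
      _ ≤ 1 := by
        show 1 / (C + 1) * C ≤ 1
        rw [div_mul_eq_mul_div, div_le_one (by positivity)]
        linarith
  have pert : ∀ σ : ℝ, |σ| ≤ 1 → ∃ m' : (Γ → ℝ) → ℝ, IM m' ∧
      ∀ f, Bdd f → Tendsto (fun n => M (fun x => f x * s n x) * (σ * c)) (U : Filter ℕ)
        (𝓝 (m' f - M f)) := by
    intro σ hσ
    let mσ : ℕ → ((Γ → ℝ) → ℝ) := fun n f => M (fun x => f x * (1 + σ * (c * s n x)))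
    have hpos : ∀ n x, 0 ≤ 1 + σ * (c * s n x) := by
      intro n x
      have h1 : |σ * (c * s n x)| ≤ 1 := by
        rw [abs_mul]
        exact mul_le_one₀ hσ (abs_nonneg _) (hcs n x)
      have := (_root_.abs_le.1 h1).1
      linarith
    have hB1 : ∀ n, Bdd (fun x => 1 + σ * (c * s n x)) := fun n =>
      Bdd.add (Bdd.const 1) (Bdd.smul _ (Bdd.smul _ (hsB n)))
    have hone : ∀ n, M (fun x => 1 + σ * (c * s n x)) = 1 := by
      intro n
      rw [IsMn.add hM (Bdd.const 1) (Bdd.smul _ (Bdd.smul _ (hsB n))), IsMn.const hM,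
        IsMn.smul hM _ (Bdd.smul _ (hsB n)), IsMn.smul hM _ (hsB n), hs0]
      simp
    have hmσ : ∀ n, IsMn (mσ n) := by
      intro n
      refine ⟨?_, ?_, ?_, ?_⟩
      · intro f g hf hg
        show M (fun x => (f x + g x) * (1 + σ * (c * s n x))) = _
        simp only [add_mul]
        exact IsMn.add hM (Bdd.mul hf (by simpa using hB1 n)) (Bdd.mul hg (by simpa using hB1 n))
      · intro f hf h0
        exact hM.2.1 _ (Bdd.mul hf (hB1 n)) fun x => mul_nonneg (h0 x) (hpos n x)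
      · show M (fun x => 1 * (1 + σ * (c * s n x))) = 1
        simp only [one_mul]
        exact hone n
      · intro f D hD
        have hf : Bdd f := ⟨D, hD⟩
        refine (IsMn.abs_le hM (Bdd.mul hf (hB1 n))).trans ?_
        have h1 : M (fun x => |f x * (1 + σ * (c * s n x))|) ≤
            M (fun x => D * (1 + σ * (c * s n x))) := by
          refine IsMn.mono hM (Bdd.abs (Bdd.mul hf (hB1 n))) (Bdd.smul _ (hB1 n)) fun x => ?_
          rw [abs_mul, abs_of_nonneg (hpos n x)]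
          exact mul_le_mul_of_nonneg_right (hD x) (hpos n x)
        refine h1.trans ?_
        rw [IsMn.smul hM _ (hB1 n), hone, mul_one]
    obtain ⟨m', hm', hlim'⟩ := exists_ulim U mσ hmσ
    have hexp : ∀ n f, Bdd f → mσ n f = M f + M (fun x => f x * s n x) * (σ * c) := by
      intro n f hf
      show M (fun x => f x * (1 + σ * (c * s n x))) = _
      have : (fun x => f x * (1 + σ * (c * s n x))) =
          fun x => f x + (σ * c) * (f x * s n x) := by
        funext x; ring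
      rw [this, IsMn.add hM hf (Bdd.smul _ (Bdd.mul hf (hsB n))),
        IsMn.smul hM _ (Bdd.mul hf (hsB n))]
      ring
    refine ⟨m', ⟨hm', ?_⟩, ?_⟩
    · intro f a hf
      obtain ⟨D, hD0, hD⟩ := Bdd.cst hf
      have hfa : Bdd (fun x => f (x * a)) := Bdd.comp hf (fun x => x * a)
      have h1 := (hlim' _ hfa).sub (hlim' f hf)
      have h2 : Tendsto (fun n => mσ n (fun x => f (x * a)) - mσ n f) (U : Filter ℕ) (𝓝 0) := by
        have hb : ∀ n, mσ n (fun x => f (x * a)) - mσ n f =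
            M (fun x => f (x * a) * (s n x - s n (x * a))) * (σ * c) := by
          intro n
          rw [hexp n _ hfa, hexp n f hf, hMinv.inv f a hf]
          have h3 : M (fun x => f x * s n x) = M (fun x => f (x * a) * s n (x * a)) :=
            (hMinv.inv (fun x => f x * s n x) a (Bdd.mul hf (hsB n))).symm
          rw [h3]
          have h4 : (fun x => f (x * a) * (s n x - s n (x * a))) =
              fun x => f (x * a) * s n x - f (x * a) * s n (x * a) := by
            funext x; ring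
          rw [h4, IsMn.sub hM (Bdd.mul hfa (hsB n))
            (Bdd.mul hfa (Bdd.comp (hsB n) (fun x => x * a)))]
          ring
        have h5 : Tendsto (fun n => mσ n (fun x => f (x * a)) - mσ n f) atTop (𝓝 0) := by
          rw [Metric.tendsto_atTop]
          intro ε hε
          have hε' : 0 < ε / (2 * (D + 1) * c) := by positivity
          obtain ⟨N, hN⟩ := eventually_atTop.1 (hsinv a _ hε')
          refine ⟨N, fun n hn => ?_⟩
          rw [Real.dist_eq, sub_zero, hb n, abs_mul]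
          have h6 : |M (fun x => f (x * a) * (s n x - s n (x * a)))| ≤
              D * (ε / (2 * (D + 1) * c)) := by
            refine hM.2.2.2 _ _ fun x => ?_
            rw [abs_mul]
            refine mul_le_mul (hD _) ?_ (abs_nonneg _) hD0
            rw [abs_sub_comm]
            exact hN n hn x
          have h7 : |σ * c| ≤ c := by
            rw [abs_mul, abs_of_pos hc]
            calc |σ| * c ≤ 1 * c := mul_le_mul_of_nonneg_right hσ hc.le
              _ = c := one_mul c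
          calc _ ≤ D * (ε / (2 * (D + 1) * c)) * c :=
                mul_le_mul h6 h7 (abs_nonneg _) (by positivity)
            _ = (D / (D + 1)) * (ε / 2) := by field_simp
            _ ≤ 1 * (ε / 2) := by
                refine mul_le_mul_of_nonneg_right ?_ (by positivity)
                rw [div_le_one (by positivity)]; linarith
            _ < ε := by linarith
        exact h5.mono_left hU
      have h3 := tendsto_nhds_unique h1 h2
      linarith
    · intro f hf
      have h1 := (hlim' f hf).sub_const (M f)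
      refine h1.congr fun n => ?_
      rw [hexp n f hf]
      ring
  obtain ⟨mp, hmp, hmpl⟩ := pert 1 (by simp)
  obtain ⟨mn, hmn, hmnl⟩ := pert (-1) (by simp)
  have hsym : ∀ f, Bdd f → mn f - M f = -(mp f - M f) := by
    intro f hf
    have h1 := hmpl f hf
    have h2 := hmnl f hf
    have h3 := h1.neg
    refine tendsto_nhds_unique h2 (h3.congr fun n => ?_)
    ring
  have hzero : ∀ j, mp (h j) = M (h j) := by
    have h1 := hMΦ mp hmp
    have h2 := hMΦ mn hmn
    have h3 : Φ mp + Φ mn = 2 * Φ M + 2 * ∑ j, (mp (h j) - M (h j)) ^ 2 := by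
      show ∑ j, (mp (h j)) ^ 2 + ∑ j, (mn (h j)) ^ 2 =
        2 * ∑ j, (M (h j)) ^ 2 + 2 * ∑ j, (mp (h j) - M (h j)) ^ 2
      rw [Finset.mul_sum, Finset.mul_sum, ← Finset.sum_add_distrib, ← Finset.sum_add_distrib]
      refine Finset.sum_congr rfl fun j _ => ?_
      have := hsym (h j) (hh j)
      have h4 : mn (h j) = 2 * M (h j) - mp (h j) := by linarith
      rw [h4]; ring
    have h4 : ∑ j, (mp (h j) - M (h j)) ^ 2 ≤ 0 := by linarith
    have h5 : ∑ j, (mp (h j) - M (h j)) ^ 2 = 0 :=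
      le_antisymm h4 (Finset.sum_nonneg fun j _ => _root_.sq_nonneg _)
    intro j
    have := (Finset.sum_eq_zero_iff_of_nonneg (fun j _ => _root_.sq_nonneg _)).1 h5 j
      (Finset.mem_univ j)
    have h6 := pow_eq_zero_iff (two_ne_zero) |>.1 this
    linarith
  have hg' := hdet mp hmp hzero
  have h1 := hmpl g hg
  rw [hg', sub_self] at h1
  have h2 := h1.mul_const (c⁻¹)
  rw [zero_mul] at h2
  refine h2.congr fun n => ?_
  field_simp

/-- mean ergodic type statement -/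
theorem sq_tendsto [Group Γ] {m : (Γ → ℝ) → ℝ} (hm : IM m) (y : Γ) (f : ℕ → Γ → ℝ)
    (hf : ∀ n, Bdd (f n)) (hco : ∀ n x, f (n + 1) x = f 1 x + f n (x * y))
    (hlim : Tendsto (fun n : ℕ => m (fun x => f 1 x * (f n x / n))) atTop (𝓝 0)) :
    Tendsto (fun n : ℕ => m (fun x => (f n x / n) ^ 2)) atTop (𝓝 0) := by
  set u : ℕ → ℝ := fun n => m (fun x => f n x ^ 2) with hu
  have hu0 : ∀ n, 0 ≤ u n := fun n => IsMn.sq_nonneg hm.mn (hf n)
  have hrec : ∀ n : ℕ, u (n + 1) = u n + 2 * (n + 1) * m (fun x => f 1 x * (f (n + 1) x / (n + 1 : ℕ)))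
      - u 1 := by
    intro n
    have h1 : u n = m (fun x => (f n (x * y)) ^ 2) :=
      (hm.inv (fun x => f n x ^ 2) y (Bdd.pow (hf n) 2)).symm
    have h2 : (fun x => (f n (x * y)) ^ 2) =
        fun x => (f (n + 1) x ^ 2 + f 1 x ^ 2) - (2 * (n + 1)) * (f 1 x * (f (n + 1) x / (n + 1 : ℕ))) := by
      funext x
      rw [hco n x]
      have : ((n + 1 : ℕ) : ℝ) ≠ 0 := by positivity
      push_cast at this ⊢
      field_simp
      ring
    have hb : Bdd (fun x => f 1 x * (f (n + 1) x / (n + 1 : ℕ))) :=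
      Bdd.mul (hf 1) (Bdd.div (hf (n + 1)) _)
    rw [h2, IsMn.sub hm.mn (Bdd.add (Bdd.pow (hf _) 2) (Bdd.pow (hf _) 2)) (Bdd.smul _ hb),
      IsMn.add hm.mn (Bdd.pow (hf _) 2) (Bdd.pow (hf _) 2), IsMn.smul hm.mn _ hb] at h1
    rw [hu] at h1 ⊢
    simp only at h1 ⊢
    linarith
  have hfin : ∀ n : ℕ, m (fun x => (f n x / n) ^ 2) = u n / (n : ℝ) ^ 2 := by
    intro n
    have : (fun x => (f n x / n) ^ 2) = fun x => f n x ^ 2 / (n : ℝ) ^ 2 := by
      funext x; rw [div_pow]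
    rw [this, IsMn.div hm.mn (Bdd.pow (hf n) 2)]
  simp only [hfin]
  rw [Metric.tendsto_atTop]
  intro ε hε
  rw [Metric.tendsto_atTop] at hlim
  obtain ⟨N, hN⟩ := hlim (ε / 8) (by positivity)
  have hstep : ∀ n, N ≤ n → u (n + 1) ≤ u n + (ε / 4) * (n + 1) := by
    intro n hn
    rw [hrec n]
    have h1 := hN (n + 1) (by omega)
    rw [Real.dist_eq, sub_zero] at h1
    have h2 := (abs_lt.1 h1).2
    have h3 : 0 ≤ u 1 := hu0 1
    have h4 : (0 : ℝ) ≤ 2 * ((n : ℝ) + 1) := by positivity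
    nlinarith [mul_le_mul_of_nonneg_left h2.le h4]
  have hsum : ∀ k : ℕ, u (N + k) ≤ u N + (ε / 4) * ((N + k) * k) := by
    intro k
    induction k with
    | zero => simp
    | succ k ih =>
      have h1 := hstep (N + k) (by omega)
      have : N + (k + 1) = N + k + 1 := by ring
      rw [this]
      push_cast at h1 ⊢
      have h2 : (0 : ℝ) ≤ (N : ℝ) := by positivity
      have h3 : (0 : ℝ) ≤ (k : ℝ) := by positivity
      nlinarith [mul_nonneg hε.le h3, mul_nonneg hε.le h2, mul_nonneg hε.le (mul_nonneg h2 h3)]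
  obtain ⟨N', hN'⟩ := exists_nat_gt (u N / (ε / 4))
  refine ⟨max (max N N') 1, fun n hn => ?_⟩
  have hn1 : N ≤ n := (le_max_left _ _).trans ((le_max_left _ _).trans hn)
  have hn2 : N' ≤ n := (le_max_right _ _).trans ((le_max_left _ _).trans hn)
  have hn3 : 1 ≤ n := (le_max_right _ _).trans hn
  have hnpos : (1 : ℝ) ≤ (n : ℝ) := by exact_mod_cast hn3
  rw [Real.dist_eq, sub_zero, abs_of_nonneg (div_nonneg (hu0 n) (by positivity)),
    div_lt_iff₀ (by positivity)]
  obtain ⟨k, rfl⟩ := Nat.exists_eq_add_of_le hn1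
  have h1 := hsum k
  have h2 : u N < (ε / 4) * (N + k : ℕ) := by
    rw [div_lt_iff₀ (by positivity)] at hN'
    have : (N' : ℝ) ≤ ((N + k : ℕ) : ℝ) := by exact_mod_cast hn2
    nlinarith [mul_le_mul_of_nonneg_right this (by positivity : (0:ℝ) ≤ ε / 4)]
  push_cast at h2 hnpos ⊢
  have h3 : (0 : ℝ) ≤ (N : ℝ) := by positivity
  have h4 : (0 : ℝ) ≤ (k : ℝ) := by positivity
  have h5 : ((N : ℝ) + k) * k ≤ ((N : ℝ) + k) ^ 2 := by nlinarith
  have h6 : ((N : ℝ) + k) ≤ ((N : ℝ) + k) ^ 2 := by nlinarith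
  nlinarith [mul_le_mul_of_nonneg_left h5 hε.le, mul_le_mul_of_nonneg_left h6 hε.le,
    mul_pos hε (by positivity : (0 : ℝ) < ((N : ℝ) + k) ^ 2)]

end H8K1
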