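import Pool.Agent.H8K1.CT.Grp

set_option autoImplicit false
namespace H8K1
open Gardner Filter Topology NG

variable {ω ω' : Om}

/-- coarse two-sided control in terms of homogeneous boxes -/
structure QIe (ψ : NG ω → NG ω') (K C : ℝ) : Prop where
  K0 : 0 < K
  C0 : 0 ≤ C
  up : ∀ x y r, 0 ≤ r → In (x⁻¹ * y) r → In ((ψ x)⁻¹ * ψ y) (K * r + C)
  low : ∀ x y r, 0 ≤ r → In ((ψ x)⁻¹ * ψ y) r → In (x⁻¹ * y) (K * r + C)

/-- displacement -/
def Yd (ψ : NG ω → NG ω') (y x : NG ω) : NG ω' := (ψ x)⁻¹ * ψ (x * y)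

theorem Yd_mul (ψ : NG ω → NG ω') (y w x : NG ω) :
    Yd ψ (y * w) x = Yd ψ y x * Yd ψ w (x * y) := by
  unfold Yd
  rw [mul_assoc x y w]
  group

/-- first layer displacement -/
def Dd (ψ : NG ω → NG ω') (y : NG ω) (i : I4) (x : NG ω) : ℝ := (Yd ψ y x).v i
/-- central displacement -/
def Ed (ψ : NG ω → NG ω') (y : NG ω) (k : Fin 2) (x : NG ω) : ℝ := (Yd ψ y x).z k

theorem Dd_mul (ψ : NG ω → NG ω') (y w : NG ω) (i : I4) (x : NG ω) :
    Dd ψ (y * w) i x = Dd ψ y i x + Dd ψ w i (x * y) := by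
  unfold Dd
  rw [Yd_mul, mul_v]
  rfl

theorem Ed_mul (ψ : NG ω → NG ω') (y w : NG ω) (k : Fin 2) (x : NG ω) :
    Ed ψ (y * w) k x = Ed ψ y k x + Ed ψ w k (x * y) +
      ω' (Yd ψ y x).v (Yd ψ w (x * y)).v k := by
  unfold Ed
  rw [Yd_mul, mul_z]
  rfl

theorem exists_In (y : NG ω) : ∃ r, 0 ≤ r ∧ In y r := by
  refine ⟨‖y.v‖ + ‖y.z‖ + 1, by positivity, ?_, ?_⟩
  · have := norm_nonneg y.z
    linarith
  · nlinarith [norm_nonneg y.z, norm_nonneg y.v, sq_nonneg (‖y.v‖ + ‖y.z‖)]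

variable {ψ : NG ω → NG ω'} {K C : ℝ}

theorem QIe.Yd_in (h : QIe ψ K C) {y : NG ω} {r : ℝ} (hy : In y r) (x : NG ω) :
    In (Yd ψ y x) (K * r + C) := by
  refine h.up x (x * y) r hy.nonneg ?_
  rwa [inv_mul_cancel_left]

theorem QIe.Dd_le (h : QIe ψ K C) {y : NG ω} {r : ℝ} (hy : In y r) (i : I4) (x : NG ω) :
    |Dd ψ y i x| ≤ K * r + C :=
  (norm_le_pi_norm (Yd ψ y x).v i).trans (h.Yd_in hy x).1

theorem QIe.Ed_le (h : QIe ψ K C) {y : NG ω} {r : ℝ} (hy : In y r) (k : Fin 2) (x : NG ω) :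
    |Ed ψ y k x| ≤ (K * r + C) ^ 2 :=
  (norm_le_pi_norm (Yd ψ y x).z k).trans (h.Yd_in hy x).2

theorem QIe.Dd_bdd (h : QIe ψ K C) (y : NG ω) (i : I4) : Bdd (Dd ψ y i) := by
  obtain ⟨r, hr, hy⟩ := exists_In y
  exact ⟨K * r + C, fun x => h.Dd_le hy i x⟩

theorem QIe.Ed_bdd (h : QIe ψ K C) (y : NG ω) (k : Fin 2) : Bdd (Ed ψ y k) := by
  obtain ⟨r, hr, hy⟩ := exists_In y
  exact ⟨(K * r + C) ^ 2, fun x => h.Ed_le hy k x⟩

section Lm
variable {m : (NG ω → ℝ) → ℝ}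

theorem Lm_mul (h : QIe ψ K C) (hm : IM m) (y w : NG ω) (i : I4) :
    m (Dd ψ (y * w) i) = m (Dd ψ y i) + m (Dd ψ w i) := by
  have h1 : Dd ψ (y * w) i = fun x => Dd ψ y i x + Dd ψ w i (x * y) := by
    funext x; exact Dd_mul ψ y w i x
  rw [h1, IsMn.add hm.mn (h.Dd_bdd y i) (Bdd.comp (h.Dd_bdd w i) (fun x => x * y)),
    hm.inv _ y (h.Dd_bdd w i)]

theorem Lm_cz (h : QIe ψ K C) (hm : IM m) (c : Z) (i : I4) :
    m (Dd ψ (cz ω c) i) = 0 := by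
  have hn : ∀ n : ℕ, m (Dd ψ (cz ω ((n : ℝ) • c)) i) = n * m (Dd ψ (cz ω c) i) := by
    intro n
    induction n with
    | zero =>
      have h0 := Lm_mul h hm (cz ω 0) (cz ω 0) i
      rw [cz_mul_cz, add_zero] at h0
      simp only [Nat.cast_zero, zero_smul, zero_mul]
      linarith
    | succ n ih =>
      have h1 : ((n + 1 : ℕ) : ℝ) • c = (n : ℝ) • c + c := by
        push_cast
        rw [add_smul, one_smul]
      rw [h1, ← cz_mul_cz, Lm_mul h hm, ih]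
      push_cast
      ring
  by_contra hne
  set d := |m (Dd ψ (cz ω c) i)| with hd
  have hd0 : 0 < d := abs_pos.2 hne
  -- bound for n = k^2
  have hb : ∀ k : ℕ, (k : ℝ) ^ 2 * d ≤ K * (k * (‖c‖ + 1)) + C := by
    intro k
    have h1 := hn (k ^ 2)
    have hin : In (cz ω (((k ^ 2 : ℕ) : ℝ) • c)) (k * (‖c‖ + 1)) := by
      refine In_cz (by positivity) ?_
      rw [norm_smul, Real.norm_natCast]
      push_cast
      rw [mul_pow]
      refine mul_le_mul_of_nonneg_left ?_ (by positivity)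
      nlinarith [norm_nonneg c]
    have h2 := hm.mn.2.2.2 _ _ (fun x => h.Dd_le hin i x)
    rw [h1, abs_mul, Nat.abs_cast] at h2
    push_cast at h2
    exact h2
  obtain ⟨k, hk⟩ := exists_nat_gt ((K * (‖c‖ + 1) + C + 1) / d)
  rw [div_lt_iff₀ hd0] at hk
  have h1 := hb (k + 1)
  push_cast at h1
  have hK := h.K0
  have hC := h.C0
  have hc := norm_nonneg c
  have hk1 : (1 : ℝ) ≤ (k : ℝ) + 1 := by
    have : (0 : ℝ) ≤ (k : ℝ) := by positivity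
    linarith
  have h3 : ((k : ℝ) + 1) ^ 2 * d ≤ ((k : ℝ) + 1) * (K * (‖c‖ + 1) + C) := by
    nlinarith
  have h4 : ((k : ℝ) + 1) * d ≤ K * (‖c‖ + 1) + C := by
    have h5 : ((k : ℝ) + 1) * (((k : ℝ) + 1) * d) ≤ ((k : ℝ) + 1) * (K * (‖c‖ + 1) + C) := by
      nlinarith
    exact le_of_mul_le_mul_left h5 (by linarith)
  nlinarith

theorem Lm_hv_add (h : QIe ψ K C) (hm : IM m) (a b : V) (i : I4) :
    m (Dd ψ (hv ω (a + b)) i) = m (Dd ψ (hv ω a) i) + m (Dd ψ (hv ω b) i) := by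
  have h1 := Lm_mul h hm (hv ω a) (hv ω b) i
  rw [hv_mul_hv, Lm_mul h hm, Lm_cz h hm, add_zero] at h1
  exact h1

theorem Lm_hv_smul (h : QIe ψ K C) (hm : IM m) (c : ℝ) (a : V) (i : I4) :
    m (Dd ψ (hv ω (c • a)) i) = c * m (Dd ψ (hv ω a) i) := by
  refine homog_of_bound (fun a => m (Dd ψ (hv ω a) i)) (fun a b => Lm_hv_add h hm a b i) K C ?_ c a
  intro v
  exact hm.mn.2.2.2 _ _ (fun x => h.Dd_le (In_hv (le_refl ‖v‖)) i x)

/-- the linear map attached to an invariant mean -/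
def Lmap (h : QIe ψ K C) (hm : IM m) : V →ₗ[ℝ] V where
  toFun a i := m (Dd ψ (hv ω a) i)
  map_add' a b := by
    funext i
    exact Lm_hv_add h hm a b i
  map_smul' c a := by
    funext i
    exact Lm_hv_smul h hm c a i

theorem Lmap_apply (h : QIe ψ K C) (hm : IM m) (a : V) (i : I4) :
    Lmap h hm a i = m (Dd ψ (hv ω a) i) := rfl

theorem Lm_eq_of_basis {m' : (NG ω → ℝ) → ℝ} (h : QIe ψ K C) (hm : IM m) (hm' : IM m') (i : I4)
    (hb : ∀ j, m' (Dd ψ (hv ω (Pi.single j 1)) i) = m (Dd ψ (hv ω (Pi.single j 1)) i)) (a : V) :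
    m' (Dd ψ (hv ω a) i) = m (Dd ψ (hv ω a) i) := by
  have hp : a = ∑ j, a j • (Pi.single j 1 : V) := by
    funext l
    simp [Finset.sum_apply, Pi.single_apply]
  have h1 : Lmap h hm' a i = Lmap h hm a i := by
    conv_lhs => rw [hp]
    conv_rhs => rw [hp]
    simp only [map_sum, map_smul, Finset.sum_apply, Pi.smul_apply]
    simp only [Lmap_apply, hb]
  exact h1

end Lm

/-- elements with bounded first layer and linear centre are eventually in linear boxes -/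
theorem In_eventually (g : ℕ → NG ω) (A B : ℝ) (hA : ∀ n, ‖(g n).v‖ ≤ A)
    (hB : ∀ n, ‖(g n).z‖ ≤ A + n * B) (δ : ℝ) (hδ : 0 < δ) :
    ∀ᶠ n : ℕ in atTop, In (g n) (δ * n) := by
  have hA0 : 0 ≤ A := (norm_nonneg _).trans (hA 0)
  obtain ⟨N₁, h₁⟩ := exists_nat_gt (A / δ)
  obtain ⟨N₂, h₂⟩ := exists_nat_gt ((A + |B|) / δ ^ 2)
  refine eventually_atTop.2 ⟨max (max N₁ N₂) 1, fun n hn => ?_⟩
  have hn1 : (N₁ : ℝ) ≤ n := by
    exact_mod_cast (le_max_left _ _).trans ((le_max_left _ _).trans hn)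
  have hn2 : (N₂ : ℝ) ≤ n := by
    exact_mod_cast (le_max_right _ _).trans ((le_max_left _ _).trans hn)
  have hn3 : (1 : ℝ) ≤ n := by exact_mod_cast (le_max_right _ _).trans hn
  rw [div_lt_iff₀ hδ] at h₁
  rw [div_lt_iff₀ (by positivity)] at h₂
  refine ⟨(hA n).trans ?_, (hB n).trans ?_⟩
  · nlinarith
  · have h3 : A + |B| ≤ n * δ ^ 2 := by
      have : (N₂ : ℝ) * δ ^ 2 ≤ n * δ ^ 2 := by gcongr
      linarith
    have h4 : A + n * B ≤ n * (A + |B|) := by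
      have := le_abs_self B
      nlinarith
    have h5 : (n : ℝ) * (A + |B|) ≤ n * (n * δ ^ 2) := mul_le_mul_of_nonneg_left h3 (by positivity)
    calc A + n * B ≤ n * (A + |B|) := h4
      _ ≤ n * (n * δ ^ 2) := h5
      _ = (δ * n) ^ 2 := by ring

end H8K1
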