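import Pool.Agent.H8K1.CT.ThmB1

set_option autoImplicit false
namespace H8K1
open Gardner Filter Topology NG

variable {ω ω' : Om} {ψ : NG ω → NG ω'} {K C : ℝ}

theorem hv_succ (hω : Alt ω) (n : ℕ) (b : V) :
    hv ω (((n + 1 : ℕ) : ℝ) • b) = hv ω b * hv ω ((n : ℝ) • b) := by
  rw [hv_mul_hv, map_smul, hω b, smul_zero, cz_zero, mul_one]
  congr 1
  push_cast
  rw [add_smul, one_smul, add_comm]

theorem conj_z (hω : Alt ω) (n : ℕ) (b : V) (w : NG ω) :
    ((hv ω ((n : ℝ) • b))⁻¹ * w * hv ω ((n : ℝ) • b)).v = w.v ∧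
    ((hv ω ((n : ℝ) • b))⁻¹ * w * hv ω ((n : ℝ) • b)).z = w.z + (n : ℝ) • (ω w.v b - ω b w.v) := by
  constructor
  · simp [mul_v, inv_v]
  · simp only [mul_z, inv_z, mul_v, inv_v, hv_v, hv_z, map_add, map_neg, map_smul,
      LinearMap.add_apply, LinearMap.neg_apply, LinearMap.smul_apply, hω b, smul_zero]
    simp only [neg_zero, zero_add, add_zero, smul_sub]
    abel

/-- the displacement cocycles are asymptotically invariant after rescaling -/
theorem asymp_inv (h : QIe ψ K C) (hω : Alt ω) (b : V) (i : I4) (w : NG ω) (ε : ℝ) (hε : 0 < ε) :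
    ∀ᶠ n : ℕ in atTop, ∀ x, |Dd ψ (hv ω ((n : ℝ) • b)) i (x * w) -
      Dd ψ (hv ω ((n : ℝ) • b)) i x| ≤ ε * n := by
  have hK := h.K0
  obtain ⟨Bw, hBw0, hBw⟩ := Bdd.cst (h.Dd_bdd w i)
  have h1 := In_eventually (fun n : ℕ => (hv ω ((n : ℝ) • b))⁻¹ * w * hv ω ((n : ℝ) • b))
    (‖w.v‖ + ‖w.z‖) (‖ω w.v b - ω b w.v‖)
    (fun n => by rw [(conj_z hω n b w).1]; linarith [norm_nonneg w.z])
    (fun n => by
      rw [(conj_z hω n b w).2]
      refine (norm_add_le _ _).trans ?_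
      rw [norm_smul, Real.norm_natCast]
      linarith [norm_nonneg w.v]) (ε / (2 * K)) (by positivity)
  obtain ⟨N, hN⟩ := exists_nat_gt ((C + Bw) / (ε / 2))
  rw [div_lt_iff₀ (by positivity)] at hN
  filter_upwards [h1, eventually_ge_atTop N] with n hn hnN
  intro x
  set y := hv ω ((n : ℝ) • b) with hy
  have e1 := Dd_mul ψ w y i x
  have e2 : w * y = y * (y⁻¹ * w * y) := by group
  rw [e2, Dd_mul] at e1
  have e3 : Dd ψ y i (x * w) - Dd ψ y i x = Dd ψ (y⁻¹ * w * y) i (x * y) - Dd ψ w i x := by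
    linarith
  rw [e3]
  refine (abs_sub _ _).trans ?_
  have h2 := h.Dd_le hn i (x * y)
  have h3 := hBw x
  have h4 : K * (ε / (2 * K) * n) = ε / 2 * n := by field_simp
  rw [h4] at h2
  have h5 : (N : ℝ) ≤ n := by exact_mod_cast hnN
  have h6 : (N : ℝ) * (ε / 2) ≤ n * (ε / 2) := by gcongr
  linarith

/-- Existence of a mean for which the rescaled displacements converge in square mean. -/
theorem exists_good_mean (h : QIe ψ K C) (hω : Alt ω) :
    ∃ (m : (NG ω → ℝ) → ℝ) (hm : IM m), ∀ b i,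
      Tendsto (fun n : ℕ => m (fun x => (Dd ψ (hv ω ((n : ℝ) • b)) i x / n -
        Lmap h hm b i) ^ 2)) atTop (𝓝 0) := by
  obtain ⟨m, hm, hmax⟩ := exists_max_mean (exists_IM ω)
    (fun p : I4 × I4 => Dd ψ (hv ω (Pi.single p.1 1)) p.2)
    (fun p => h.Dd_bdd _ _)
  refine ⟨m, hm, ?_⟩
  intro b i
  set L := Lmap h hm b i with hL
  let f : ℕ → NG ω → ℝ := fun n x => Dd ψ (hv ω ((n : ℝ) • b)) i x - n * L
  have hfb : ∀ n, Bdd (f n) := fun n => Bdd.sub (h.Dd_bdd _ _) (Bdd.const _)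
  have hf1 : f 1 = fun x => Dd ψ (hv ω b) i x - L := by
    funext x
    simp [f]
  have hco : ∀ n x, f (n + 1) x = f 1 x + f n (x * hv ω b) := by
    intro n x
    rw [hf1]
    show Dd ψ (hv ω (((n + 1 : ℕ) : ℝ) • b)) i x - ((n + 1 : ℕ) : ℝ) * L =
      Dd ψ (hv ω b) i x - L + (Dd ψ (hv ω ((n : ℝ) • b)) i (x * hv ω b) - n * L)
    rw [hv_succ hω, Dd_mul]
    push_cast
    ring
  have hlim : Tendsto (fun n : ℕ => m (fun x => f 1 x * (f n x / n))) atTop (𝓝 0) := by
    refine hmax (fun n x => f n x / n) ?_ ?_ ?_ (f 1) (hfb 1) ?_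
    · refine ⟨K * ‖b‖ + C + |L|, fun n x => ?_⟩
      have hKb : 0 ≤ K * ‖b‖ := mul_nonneg h.K0.le (norm_nonneg _)
      have hC0 := h.C0
      have hL0 := abs_nonneg L
      rcases Nat.eq_zero_or_pos n with rfl | hn
      · simp only [Nat.cast_zero, div_zero, abs_zero]
        positivity
      · have hn' : (0 : ℝ) < n := by exact_mod_cast hn
        have hn1 : (1 : ℝ) ≤ n := by exact_mod_cast hn
        rw [abs_div, abs_of_pos hn', div_le_iff₀ hn']
        refine (abs_sub _ _).trans ?_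
        have h1 := h.Dd_le (In_hv (ω := ω) (le_refl ‖(n : ℝ) • b‖)) i x
        rw [norm_smul, Real.norm_natCast] at h1
        rw [abs_mul, abs_of_pos hn']
        nlinarith
    · intro n
      rw [IsMn.div hm.mn (hfb n)]
      have : m (f n) = 0 := by
        show m (fun x => Dd ψ (hv ω ((n : ℝ) • b)) i x - n * L) = 0
        rw [IsMn.sub hm.mn (h.Dd_bdd _ _) (Bdd.const _), IsMn.const hm.mn]
        have := Lm_hv_smul h hm (n : ℝ) b i
        rw [← Lmap_apply h hm b i, ← hL] at this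
        have h2 : m (fun x => Dd ψ (hv ω ((n : ℝ) • b)) i x) = m (Dd ψ (hv ω ((n : ℝ) • b)) i) := rfl
        rw [h2, this, sub_self]
      rw [this, zero_div]
    · intro w ε hε
      filter_upwards [asymp_inv h hω b i w ε hε, eventually_ge_atTop 1] with n hn hn1
      intro x
      have hn' : (0 : ℝ) < n := by exact_mod_cast hn1
      have e1 : f n (x * w) / n - f n x / n =
          (Dd ψ (hv ω ((n : ℝ) • b)) i (x * w) - Dd ψ (hv ω ((n : ℝ) • b)) i x) / n := by
        show (Dd ψ (hv ω ((n : ℝ) • b)) i (x * w) - n * L) / n -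
          (Dd ψ (hv ω ((n : ℝ) • b)) i x - n * L) / n = _
        ring
      rw [e1, abs_div, abs_of_pos hn', div_le_iff₀ hn']
      exact hn x
    · intro m' hm' hmm'
      rw [hf1, IsMn.sub hm.mn (h.Dd_bdd _ _) (Bdd.const _), IsMn.sub hm'.mn (h.Dd_bdd _ _)
        (Bdd.const _), IsMn.const hm.mn, IsMn.const hm'.mn]
      have := Lm_eq_of_basis h hm hm' i (fun j => hmm' (j, i)) b
      exact congrArg (fun t => t - L) this
  have h1 := sq_tendsto hm (hv ω b) f hfb hco hlim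
  refine h1.congr' ?_
  filter_upwards [eventually_ge_atTop 1] with n hn
  have hn' : (n : ℝ) ≠ 0 := by
    have : (0 : ℝ) < n := by exact_mod_cast hn
    exact this.ne'
  congr 1
  funext x
  show ((Dd ψ (hv ω ((n : ℝ) • b)) i x - n * L) / n) ^ 2 = _
  congr 1
  field_simp

end H8K1
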