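import Pool.Agent.H8K1.CT.ThmB2

set_option autoImplicit false
namespace H8K1
open Gardner Filter Topology NG

variable {Γ : Type*}

/-- square-mean convergence to a constant -/
structure L2 (m : (Γ → ℝ) → ℝ) (p : ℕ → Γ → ℝ) (α : ℝ) : Prop where
  b : ∀ n, Bdd (p n)
  t : Tendsto (fun n => m (fun x => (p n x - α) ^ 2)) atTop (𝓝 0)

section l2
variable {m : (Γ → ℝ) → ℝ} {p q : ℕ → Γ → ℝ} {α β : ℝ}

theorem L2.add (hm : IsMn m) (hp : L2 m p α) (hq : L2 m q β) :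
    L2 m (fun n x => p n x + q n x) (α + β) := by
  refine ⟨fun n => Bdd.add (hp.b n) (hq.b n), ?_⟩
  have h1 := (hp.t.const_mul 2).add (hq.t.const_mul 2)
  rw [mul_zero, add_zero] at h1
  refine squeeze_zero (fun n => ?_) (fun n => ?_) h1
  · exact IsMn.sq_nonneg hm (Bdd.sub (Bdd.add (hp.b n) (hq.b n)) (Bdd.const _))
  · have b1 := Bdd.pow (Bdd.sub (hp.b n) (Bdd.const α)) 2
    have b2 := Bdd.pow (Bdd.sub (hq.b n) (Bdd.const β)) 2
    rw [← IsMn.smul hm _ b1, ← IsMn.smul hm _ b2, ← IsMn.add hm (Bdd.smul _ b1) (Bdd.smul _ b2)]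
    refine IsMn.mono hm (Bdd.pow (Bdd.sub (Bdd.add (hp.b n) (hq.b n)) (Bdd.const _)) 2)
      (Bdd.add (Bdd.smul _ b1) (Bdd.smul _ b2)) fun x => ?_
    nlinarith [sq_nonneg ((p n x - α) - (q n x - β))]

theorem L2.smul (hm : IsMn m) (c : ℝ) (hp : L2 m p α) :
    L2 m (fun n x => c * p n x) (c * α) := by
  refine ⟨fun n => Bdd.smul _ (hp.b n), ?_⟩
  have h1 := hp.t.const_mul (c ^ 2)
  rw [mul_zero] at h1
  refine h1.congr fun n => ?_
  rw [← IsMn.smul hm _ (Bdd.pow (Bdd.sub (hp.b n) (Bdd.const α)) 2)]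
  congr 1
  funext x
  ring

theorem L2.sub (hm : IsMn m) (hp : L2 m p α) (hq : L2 m q β) :
    L2 m (fun n x => p n x - q n x) (α - β) := by
  have := L2.add hm hp (L2.smul hm (-1) hq)
  simpa [sub_eq_add_neg] using this

theorem tendsto_of_sq {u : ℕ → ℝ} (h : Tendsto (fun n => u n ^ 2) atTop (𝓝 0)) :
    Tendsto u atTop (𝓝 0) := by
  rw [tendsto_zero_iff_abs_tendsto_zero]
  have h1 := (Real.continuous_sqrt.tendsto 0).comp h
  rw [Real.sqrt_zero] at h1
  refine h1.congr fun n => ?_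
  show Real.sqrt (u n ^ 2) = |u n|
  exact Real.sqrt_sq_eq_abs _

theorem L2.mean (hm : IsMn m) (hp : L2 m p α) : Tendsto (fun n => m (p n)) atTop (𝓝 α) := by
  have h1 : Tendsto (fun n => m (p n) - α) atTop (𝓝 0) := by
    refine tendsto_of_sq ?_
    refine squeeze_zero (fun n => sq_nonneg _) (fun n => ?_) hp.t
    have h2 := IsMn.sq_le hm (Bdd.sub (hp.b n) (Bdd.const α))
    rw [IsMn.sub hm (hp.b n) (Bdd.const α), IsMn.const hm] at h2
    exact h2
  have h2 := h1.add_const α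
  simpa using h2

theorem L2.mul (hm : IsMn m) (hp : L2 m p α) (hq : L2 m q β) :
    Tendsto (fun n => m (fun x => p n x * q n x)) atTop (𝓝 (α * β)) := by
  have h1 : Tendsto (fun n => m (fun x => (p n x - α) * (q n x - β))) atTop (𝓝 0) := by
    refine tendsto_of_sq ?_
    have h2 := hp.t.mul hq.t
    rw [mul_zero] at h2
    refine squeeze_zero (fun n => sq_nonneg _) (fun n => ?_) h2
    exact IsMn.cs hm (Bdd.sub (hp.b n) (Bdd.const α)) (Bdd.sub (hq.b n) (Bdd.const β))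
  have h2 := (L2.mean hm hp).const_mul β
  have h3 := (L2.mean hm hq).const_mul α
  have h4 := (h1.add (h2.add h3)).sub_const (α * β)
  have h5 : 0 + (β * α + α * β) - α * β = α * β := by ring
  rw [h5] at h4
  refine h4.congr fun n => ?_
  have e : (fun x => (p n x - α) * (q n x - β)) =
      fun x => (p n x * q n x + α * β) - (β * p n x + α * q n x) := by
    funext x; ring
  rw [e, IsMn.sub hm (Bdd.add (Bdd.mul (hp.b n) (hq.b n)) (Bdd.const _))
    (Bdd.add (Bdd.smul _ (hp.b n)) (Bdd.smul _ (hq.b n))),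
    IsMn.add hm (Bdd.mul (hp.b n) (hq.b n)) (Bdd.const _), IsMn.const hm,
    IsMn.add hm (Bdd.smul _ (hp.b n)) (Bdd.smul _ (hq.b n)), IsMn.smul hm _ (hp.b n),
    IsMn.smul hm _ (hq.b n)]
  ring

theorem L2.shift [Group Γ] (hm : IM m) (y : ℕ → Γ) (hp : L2 m p α) :
    L2 m (fun n x => p n (x * y n)) α := by
  refine ⟨fun n => Bdd.comp (hp.b n) (fun x => x * y n), ?_⟩
  refine hp.t.congr fun n => ?_
  exact (hm.inv (fun x => (p n x - α) ^ 2) (y n) (Bdd.pow (Bdd.sub (hp.b n) (Bdd.const α)) 2)).symm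

theorem L2.congr {p' : ℕ → Γ → ℝ} {α' : ℝ} (hp : L2 m p α) (h : ∀ n x, p n x = p' n x)
    (hα : α = α') : L2 m p' α' := by
  have : p = p' := by
    funext n x; exact h n x
  rw [← this, ← hα]
  exact hp

theorem bil_tendsto (hm : IsMn m) (ω' : Om) (k : Fin 2) (p q : ℕ → Γ → V) (α β : V)
    (hp : ∀ i, L2 m (fun n x => p n x i / n) (α i))
    (hq : ∀ i, L2 m (fun n x => q n x i / n) (β i)) :
    Tendsto (fun n : ℕ => m (fun x => ω' (p n x) (q n x) k) / (n : ℝ) ^ 2) atTop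
      (𝓝 (ω' α β k)) := by
  rw [bilin_expand]
  have h1 : Tendsto (fun n : ℕ => ∑ i, ∑ j, ω' (Pi.single i 1) (Pi.single j 1) k *
      m (fun x => p n x i / n * (q n x j / n))) atTop
      (𝓝 (∑ i, ∑ j, ω' (Pi.single i 1) (Pi.single j 1) k * (α i * β j))) := by
    refine tendsto_finsetSum _ fun i _ => tendsto_finsetSum _ fun j _ => ?_
    exact (L2.mul hm (hp i) (hq j)).const_mul _
  refine h1.congr' ?_
  filter_upwards [eventually_ge_atTop 1] with n hn
  have hn' : (n : ℝ) ≠ 0 := by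
    have : (0 : ℝ) < n := by exact_mod_cast hn
    exact this.ne'
  have hb : ∀ i j, Bdd (fun x => p n x i / n * (q n x j / n)) := fun i j =>
    Bdd.mul ((hp i).b n) ((hq j).b n)
  have e : (fun x => ω' (p n x) (q n x) k) = fun x => ∑ i, ∑ j,
      (ω' (Pi.single i 1) (Pi.single j 1) k * (n : ℝ) ^ 2) * (p n x i / n * (q n x j / n)) := by
    funext x
    rw [bilin_expand]
    refine Finset.sum_congr rfl fun i _ => Finset.sum_congr rfl fun j _ => ?_
    field_simp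
  rw [e, IsMn.sum hm _ (fun i => Bdd.sum _ fun j => Bdd.smul _ (hb i j)), Finset.sum_div]
  refine Finset.sum_congr rfl fun i _ => ?_
  rw [IsMn.sum hm _ (fun j => Bdd.smul _ (hb i j)), Finset.sum_div]
  refine Finset.sum_congr rfl fun j _ => ?_
  rw [IsMn.smul hm _ (hb i j)]
  field_simp

end l2

variable {ω ω' : Om} {ψ : NG ω → NG ω'} {K C : ℝ} {m : (NG ω → ℝ) → ℝ}

/-- the good property of a mean -/
def Good (h : QIe ψ K C) (hm : IM m) : Prop := ∀ b i,
      Tendsto (fun n : ℕ => m (fun x => (Dd ψ (hv ω ((n : ℝ) • b)) i x / n -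
        Lmap h hm b i) ^ 2)) atTop (𝓝 0)

theorem Good.l2 {h : QIe ψ K C} {hm : IM m} (hg : Good h hm) (b : V) (i : I4) :
    L2 m (fun n x => Dd ψ (hv ω ((n : ℝ) • b)) i x / n) (Lmap h hm b i) :=
  ⟨fun n => Bdd.div (h.Dd_bdd _ _) _, hg b i⟩

theorem comm_cz (hω : Alt ω) (a b : V) :
    hv ω a * hv ω b = (hv ω b * hv ω a) * cz ω ((2 : ℝ) • ω a b) := by
  rw [hv_mul_hv, hv_mul_hv, mul_assoc, cz_mul_cz, add_comm b a]
  congr 2
  rw [hω.swap a b, two_smul]
  abel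

theorem ev_bdd (h : QIe ψ K C) (k : Fin 2) (y w : NG ω) (u : NG ω → NG ω) (u' : NG ω → NG ω) :
    Bdd (fun x => ω' (Yd ψ y (u x)).v (Yd ψ w (u' x)).v k) := by
  have : (fun x => ω' (Yd ψ y (u x)).v (Yd ψ w (u' x)).v k) = fun x => ∑ i, ∑ j,
      ω' (Pi.single i 1) (Pi.single j 1) k * (Dd ψ y i (u x) * Dd ψ w j (u' x)) := by
    funext x
    rw [bilin_expand]
    rfl
  rw [this]
  exact Bdd.sum _ fun i => Bdd.sum _ fun j => Bdd.smul _
    (Bdd.mul (Bdd.comp (h.Dd_bdd y i) u) (Bdd.comp (h.Dd_bdd w j) u'))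

theorem area (h : QIe ψ K C) (hm : IM m) (hω : Alt ω) (hω' : Alt ω') (hg : Good h hm)
    (a b : V) (k : Fin 2) :
    Tendsto (fun n : ℕ => m (Ed ψ (cz ω ((n : ℝ) ^ 2 • (2 : ℝ) • ω a b)) k) / (n : ℝ) ^ 2) atTop
      (𝓝 (2 * ω' (Lmap h hm a) (Lmap h hm b) k)) := by
  set y : ℕ → NG ω := fun n => hv ω ((n : ℝ) • a) with hy
  set w : ℕ → NG ω := fun n => hv ω ((n : ℝ) • b) with hw
  set c : ℕ → NG ω := fun n => cz ω ((n : ℝ) ^ 2 • (2 : ℝ) • ω a b) with hc
  have hcomm : ∀ n, y n * w n = (w n * y n) * c n := by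
    intro n
    show hv ω ((n : ℝ) • a) * hv ω ((n : ℝ) • b) = _
    rw [comm_cz hω]
    congr 2
    simp only [map_smul, LinearMap.smul_apply, smul_smul]
    congr 1
    ring
  set La := Lmap h hm a with hLa
  set Lb := Lmap h hm b with hLb
  have hP : ∀ i, L2 m (fun n x => (Yd ψ (y n) x).v i / n) (La i) := fun i => hg.l2 a i
  have hQ : ∀ i, L2 m (fun n x => (Yd ψ (w n) x).v i / n) (Lb i) := fun i => hg.l2 b i
  have hP' : ∀ i, L2 m (fun n x => (Yd ψ (y n) (x * w n)).v i / n) (La i) := fun i =>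
    L2.shift hm w (hP i)
  have hQ' : ∀ i, L2 m (fun n x => (Yd ψ (w n) (x * y n)).v i / n) (Lb i) := fun i =>
    L2.shift hm y (hQ i)
  have hS : ∀ i, L2 m (fun n x => (Yd ψ (w n * y n) x).v i / n) ((Lb + La) i) := by
    intro i
    refine (L2.add hm.mn (hQ i) (hP' i)).congr ?_ rfl
    intro n x
    rw [Yd_mul, mul_v, ← add_div]
    rfl
  have hR : ∀ i, L2 m (fun n x => (Yd ψ (c n) (x * (w n * y n))).v i / n) ((0 : V) i) := by
    intro i
    refine (L2.sub hm.mn (L2.add hm.mn (hP i) (hQ' i)) (hS i)).congr ?_ ?_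
    · intro n x
      have e1 : (Yd ψ (y n * w n) x).v = (Yd ψ (y n) x).v + (Yd ψ (w n) (x * y n)).v := by
        rw [Yd_mul, mul_v]
      have e2 : (Yd ψ (y n * w n) x).v =
          (Yd ψ (w n * y n) x).v + (Yd ψ (c n) (x * (w n * y n))).v := by
        rw [hcomm n, Yd_mul ψ (w n * y n) (c n) x, mul_v]
      rw [e1] at e2
      have e3 := congrFun e2 i
      simp only [Pi.add_apply] at e3
      rw [← add_div, ← sub_div, e3]
      congr 1
      ring
    · simp only [Pi.add_apply, Pi.zero_apply]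
      ring
  have t1 := bil_tendsto hm.mn ω' k _ _ La Lb hP hQ'
  have t2 := bil_tendsto hm.mn ω' k _ _ Lb La hQ hP'
  have t3 := bil_tendsto hm.mn ω' k _ _ (Lb + La) 0 hS hR
  have t4 := (t1.sub t2).sub t3
  have e4 : ω' La Lb k - ω' Lb La k - ω' (Lb + La) 0 k = 2 * ω' La Lb k := by
    rw [hω'.swap La Lb, map_zero]
    simp only [Pi.neg_apply, Pi.zero_apply]
    ring
  rw [e4] at t4
  refine t4.congr fun n => ?_
  rw [← sub_div, ← sub_div]
  congr 1
  have key : ∀ x, Ed ψ (c n) k (x * (w n * y n)) =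
      ((((Ed ψ (y n) k x - Ed ψ (y n) k (x * w n)) + (Ed ψ (w n) k (x * y n) - Ed ψ (w n) k x)) +
      ω' (Yd ψ (y n) x).v (Yd ψ (w n) (x * y n)).v k) -
      ω' (Yd ψ (w n) x).v (Yd ψ (y n) (x * w n)).v k) -
      ω' (Yd ψ (w n * y n) x).v (Yd ψ (c n) (x * (w n * y n))).v k := by
    intro x
    have e1 := Ed_mul ψ (y n) (w n) k x
    rw [hcomm n, Ed_mul ψ (w n * y n) (c n) k x, Ed_mul ψ (w n) (y n) k x] at e1
    linarith
  have e5 := hm.inv (Ed ψ (c n) k) (w n * y n) (h.Ed_bdd _ _)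
  rw [← e5]
  simp only [key]
  have b1 : Bdd (fun x => Ed ψ (y n) k x) := h.Ed_bdd _ _
  have b2 : Bdd (fun x => Ed ψ (y n) k (x * w n)) := Bdd.comp b1 (fun x => x * w n)
  have b3 : Bdd (fun x => Ed ψ (w n) k x) := h.Ed_bdd _ _
  have b4 : Bdd (fun x => Ed ψ (w n) k (x * y n)) := Bdd.comp b3 (fun x => x * y n)
  have b5 := ev_bdd h k (y n) (w n) (fun x => x) (fun x => x * y n)
  have b6 := ev_bdd h k (w n) (y n) (fun x => x) (fun x => x * w n)
  have b7 := ev_bdd h k (w n * y n) (c n) (fun x => x) (fun x => x * (w n * y n))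
  have b8 := Bdd.add (Bdd.sub b1 b2) (Bdd.sub b4 b3)
  rw [IsMn.sub hm.mn (Bdd.sub (Bdd.add b8 b5) b6) b7, IsMn.sub hm.mn (Bdd.add b8 b5) b6,
    IsMn.add hm.mn b8 b5, IsMn.add hm.mn (Bdd.sub b1 b2) (Bdd.sub b4 b3), IsMn.sub hm.mn b1 b2,
    IsMn.sub hm.mn b4 b3, hm.inv _ (w n) b1, hm.inv _ (y n) b3]
  ring

theorem Lmap_area (h : QIe ψ K C) (hm : IM m) (hω : Alt ω) (hω' : Alt ω') (hg : Good h hm)
    (a b a' b' : V) (hab : ω a b = ω a' b') :
    ω' (Lmap h hm a) (Lmap h hm b) = ω' (Lmap h hm a') (Lmap h hm b') := by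
  funext k
  have h1 := area h hm hω hω' hg a b k
  have h2 := area h hm hω hω' hg a' b' k
  rw [hab] at h1
  have := tendsto_nhds_unique h1 h2
  linarith

end H8K1
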